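import Pool.Agent.H53R3.Slp
import Pool.Agent.H53R3.RatDer
import Pool.Agent.H515R2.MMR.Rank

/-!
# From programs for polynomials which restrict to matrix multiplication to the exponent
-/

namespace Pool.Agent.R803.MM

set_option linter.unusedSectionVars false
set_option linter.unusedSimpArgs false

open MvPolynomial Pool.Agent.H53R3 Pool.Agent.H515R2.MMR

/-- Polynomials in three auxiliary variables. -/
abbrev R0 := MvPolynomial (Fin 3) ℂ

/-- Common denominators. -/
lemma exists_den {m : ℕ} (s : Finset (RF m)) :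
    ∃ d : Pl m, d ≠ 0 ∧ ∀ z ∈ s, ∃ P : Pl m,
      algebraMap (Pl m) (RF m) P = algebraMap (Pl m) (RF m) d * z := by
  obtain ⟨d, hd⟩ := IsLocalization.exist_integer_multiples_of_finset (nonZeroDivisors (Pl m)) s
  refine ⟨d, nonZeroDivisors.ne_zero d.2, fun z hz => ?_⟩
  obtain ⟨P, hP⟩ := hd z hz
  refine ⟨P, ?_⟩
  rw [hP, Algebra.smul_def]

lemma dv_poly {m : ℕ} (i : Fin m) (g : Pl m) :
    dv i (algebraMap (Pl m) (RF m) g) = algebraMap (Pl m) (RF m) (pderiv i g) := by
  induction g using MvPolynomial.induction_on with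
  | C a =>
    rw [pderiv_C, map_zero]
    have : algebraMap (Pl m) (RF m) (C a) = algebraMap ℂ (RF m) a :=
      (IsScalarTower.algebraMap_apply ℂ (Pl m) (RF m) a).symm
    rw [this, dv_algebraMap]
  | add p q hp hq => rw [map_add, (isDer_dv i).add, hp, hq, map_add, map_add]
  | mul_X p j hp =>
    rw [map_mul, (isDer_dv i).mul, hp, Derivation.leibniz, map_add, smul_eq_mul, smul_eq_mul,
      map_mul, map_mul, pderiv_X]
    have : algebraMap (Pl m) (RF m) (X j) = xv j := rfl
    rw [this, dv_xv]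
    by_cases h : j = i
    · subst h; simp; ring
    · simp [h, Pi.single_apply, Ne.symm h]; ring

/-- Chain rule along affine families. -/
lemma pderiv_aeval_chain {M : ℕ} (φ : Fin M → R0) (e : Fin 3) (v : Fin M → ℂ)
    (hφ : ∀ t, pderiv e (φ t) = C (v t)) (g : Pl M) :
    pderiv e (aeval φ g) = ∑ t, C (v t) * aeval φ (pderiv t g) := by
  induction g using MvPolynomial.induction_on with
  | C a => simp
  | add p q hp hq =>
    rw [map_add, map_add, hp, hq, ← Finset.sum_add_distrib]
    refine Finset.sum_congr rfl fun t _ => ?_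
    rw [map_add, map_add, mul_add]
  | mul_X p s hp =>
    rw [map_mul, Derivation.leibniz, hp, aeval_X, hφ, smul_eq_mul, smul_eq_mul]
    have h1 : ∀ t, C (v t) * aeval φ (pderiv t (p * X s)) =
        φ s * (C (v t) * aeval φ (pderiv t p)) +
          if t = s then C (v t) * aeval φ p else 0 := by
      intro t
      rw [Derivation.leibniz, map_add, smul_eq_mul, smul_eq_mul, map_mul, map_mul, aeval_X,
        pderiv_X]
      by_cases h : t = s
      · subst h; simp; ring
      · simp [h, Pi.single_apply, Ne.symm h]; ring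
    rw [Finset.sum_congr rfl fun t _ => h1 t, Finset.sum_add_distrib, ← Finset.mul_sum]
    simp
    ring

/-- Functions which are affine with complex coefficients in the entries of three matrices. -/
def IsAff {q : ℕ} (f : (Fin 3 → Matrix (Fin q) (Fin q) R0) → R0) : Prop :=
  ∃ (c₀ : ℂ) (c : Fin 3 → Fin q → Fin q → ℂ), ∀ X : Fin 3 → Matrix (Fin q) (Fin q) R0,
    f X = C c₀ + ∑ e, ∑ i, ∑ j, X e i j * C (c e i j)

namespace IsAff

variable {q : ℕ}

lemma const (a : ℂ) : IsAff (q := q) fun _ => C a := ⟨a, fun _ _ _ => 0, fun X => by simp⟩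

lemma zero : IsAff (q := q) fun _ => 0 := by
  have := const (q := q) 0
  simpa using this

lemma coord (e : Fin 3) (i j : Fin q) : IsAff (q := q) fun X => X e i j := by
  refine ⟨0, fun e' i' j' => if e' = e ∧ i' = i ∧ j' = j then 1 else 0, fun X => ?_⟩
  rw [map_zero, zero_add, Finset.sum_eq_single e, Finset.sum_eq_single i,
    Finset.sum_eq_single j]
  · simp
  · intro b _ hb; simp [hb]
  · simp
  · intro b _ hb; simp [hb]
  · simp
  · intro b _ hb; simp [hb]
  · simp

lemma add {f g : (Fin 3 → Matrix (Fin q) (Fin q) R0) → R0} (hf : IsAff f) (hg : IsAff g) :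
    IsAff fun X => f X + g X := by
  obtain ⟨a, c, h⟩ := hf
  obtain ⟨a', c', h'⟩ := hg
  refine ⟨a + a', fun e i j => c e i j + c' e i j, fun X => ?_⟩
  beta_reduce
  rw [h, h', map_add]
  simp only [map_add, mul_add, Finset.sum_add_distrib]
  ring

lemma mul_const {f : (Fin 3 → Matrix (Fin q) (Fin q) R0) → R0} (hf : IsAff f) (b : ℂ) :
    IsAff fun X => f X * C b := by
  obtain ⟨a, c, h⟩ := hf
  refine ⟨a * b, fun e i j => c e i j * b, fun X => ?_⟩
  beta_reduce
  rw [h, map_mul, add_mul]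
  simp only [map_mul, Finset.sum_mul, mul_assoc]

lemma const_mul {f : (Fin 3 → Matrix (Fin q) (Fin q) R0) → R0} (hf : IsAff f) (b : ℂ) :
    IsAff fun X => C b * f X := by
  have := hf.mul_const b
  refine (congrArg IsAff (funext fun X => ?_)).mp this
  ring

lemma sum {α : Type*} (s : Finset α) (f : α → (Fin 3 → Matrix (Fin q) (Fin q) R0) → R0)
    (h : ∀ a ∈ s, IsAff (f a)) : IsAff fun X => ∑ a ∈ s, f a X := by
  classical
  induction s using Finset.induction_on with
  | empty => simpa using zero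
  | insert a s ha ih =>
    have h1 := (h a (Finset.mem_insert_self _ _)).add
      (ih fun b hb => h b (Finset.mem_insert_of_mem hb))
    refine (congrArg IsAff (funext fun X => ?_)).mp h1
    rw [Finset.sum_insert ha]

end IsAff

section test

variable {q M : ℕ}

/-- The three test matrices. -/
noncomputable def tst (i j j' k k' l : Fin q) : Fin 3 → Matrix (Fin q) (Fin q) R0 :=
  ![Matrix.single i j (X 0), Matrix.single j' k (X 1), Matrix.single k' l (X 2)]

lemma aff_tst (c₀ : ℂ) (c : Fin 3 → Fin q → Fin q → ℂ) (i j j' k k' l : Fin q) :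
    (C c₀ + ∑ e, ∑ i', ∑ j'', tst i j j' k k' l e i' j'' * C (c e i' j'') : R0) =
      C c₀ + X 0 * C (c 0 i j) + X 1 * C (c 1 j' k) + X 2 * C (c 2 k' l) := by
  have h : ∀ (a b : Fin q) (x : R0) (d : Fin q → Fin q → ℂ),
      ∑ i', ∑ j'', Matrix.single a b x i' j'' * C (d i' j'') = x * C (d a b) := by
    intro a b x d
    rw [Finset.sum_eq_single a, Finset.sum_eq_single b]
    · simp [Matrix.single]
    · intro b' _ hb'; simp [Matrix.single, Ne.symm hb']
    · simp
    · intro b' _ hb'; simp [Matrix.single, Ne.symm hb']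
    · simp
  rw [Fin.sum_univ_three]
  simp only [tst, Matrix.cons_val_zero, Matrix.cons_val_one, Matrix.cons_val]
  rw [h, h, h]
  ring

/-- An affine family at the test matrices. -/
lemma exists_directions (pt : (Fin 3 → Matrix (Fin q) (Fin q) R0) → Fin M → R0)
    (hpt : ∀ t, IsAff fun X => pt X t) :
    ∃ (c₀ : Fin M → ℂ) (c : Fin 3 → Fin q → Fin q → Fin M → ℂ), ∀ i j j' k k' l t,
      pt (tst i j j' k k' l) t =
        C (c₀ t) + X 0 * C (c 0 i j t) + X 1 * C (c 1 j' k t) + X 2 * C (c 2 k' l t) := by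
  choose c₀ c hc using hpt
  refine ⟨c₀, fun e i j t => c t e i j, fun i j j' k k' l t => ?_⟩
  have := hc t (tst i j j' k k' l)
  simp only at this
  rw [this, aff_tst]

end test

/-- The vector `u` in the direction `v`. -/
noncomputable def dt {M : ℕ} (v : Fin M → ℂ) (u : Fin M → Polynomial ℂ) : Polynomial ℂ :=
  ∑ t, Polynomial.C (v t) * u t

lemma sum3 {M : ℕ} {S : Type*} [CommRing S] (f g h : Fin M → S) :
    ∑ a, ∑ b, ∑ c, f a * g b * h c = (∑ a, f a) * (∑ b, g b) * (∑ c, h c) := by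
  simp only [← Finset.mul_sum, ← Finset.sum_mul]

lemma sum2 {M : ℕ} {S : Type*} [CommRing S] (f g : Fin M → S) :
    ∑ a, ∑ b, f a * g b = (∑ a, f a) * (∑ b, g b) := by
  simp only [← Finset.mul_sum, ← Finset.sum_mul]

/-- Evaluation along a line. -/
noncomputable def line {M : ℕ} (x₀ a : Fin M → ℂ) : Pl M →ₐ[ℂ] Polynomial ℂ :=
  aeval fun t => Polynomial.C (x₀ t) + Polynomial.X * Polynomial.C (a t)

lemma line_eval {M : ℕ} (x₀ a : Fin M → ℂ) (s : ℂ) (p : Pl M) :
    (line x₀ a p).eval s = eval (fun t => x₀ t + s * a t) p := by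
  have h : (Polynomial.evalRingHom s).comp (line x₀ a : Pl M →ₐ[ℂ] Polynomial ℂ).toRingHom =
      (eval fun t => x₀ t + s * a t) := by
    refine MvPolynomial.ringHom_ext ?_ ?_
    · intro c
      simp [line]
    · intro t
      simp [line]
      ring
  exact congrArg (fun f => f p) h

lemma exists_line {M : ℕ} (x₀ : Fin M → ℂ) {d : Pl M} (hd : d ≠ 0) :
    ∃ (a : Fin M → ℂ) (h : ℕ) (e : Polynomial ℂ), e.eval 0 ≠ 0 ∧
      line x₀ a d = Polynomial.X ^ h * e := by
  obtain ⟨b, hb⟩ : ∃ b : Fin M → ℂ, eval b d ≠ 0 := by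
    by_contra hcon
    push Not at hcon
    exact hd (MvPolynomial.funext fun a => by rw [hcon a, map_zero])
  have h1 : (line x₀ (fun t => b t - x₀ t) d).eval 1 ≠ 0 := by
    rw [line_eval]
    have : (fun t => x₀ t + 1 * (b t - x₀ t)) = b := by funext t; ring
    rwa [this]
  have h2 : line x₀ (fun t => b t - x₀ t) d ≠ 0 := by
    intro h
    rw [h, Polynomial.eval_zero] at h1
    exact h1 rfl
  obtain ⟨e, he1, he2⟩ := Polynomial.exists_eq_pow_rootMultiplicity_mul_and_not_dvd _ h2 0
  refine ⟨fun t => b t - x₀ t, _, e, ?_, by simpa using he1⟩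
  intro h
  apply he2
  rw [Polynomial.dvd_iff_isRoot]
  exact h

/-- First order differential operator with constant coefficients. -/
noncomputable def dir {M : ℕ} (v : Fin M → ℂ) (g : Pl M) : Pl M := ∑ t, C (v t) * pderiv t g

lemma dir_dir_dir {M : ℕ} (u v w : Fin M → ℂ) (g : Pl M) :
    dir u (dir v (dir w g)) =
      ∑ a, ∑ b, ∑ c, C (u a) * C (v b) * C (w c) * pderiv a (pderiv b (pderiv c g)) := by
  unfold dir
  refine Finset.sum_congr rfl fun a _ => ?_
  rw [map_sum, Finset.mul_sum]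
  refine Finset.sum_congr rfl fun b _ => ?_
  rw [Derivation.leibniz, pderiv_C, smul_zero, add_zero, map_sum, smul_eq_mul, map_sum,
    Finset.mul_sum, Finset.mul_sum]
  refine Finset.sum_congr rfl fun c _ => ?_
  rw [Derivation.leibniz, pderiv_C, smul_zero, add_zero, smul_eq_mul, Derivation.leibniz,
    pderiv_C, smul_zero, add_zero, smul_eq_mul]
  ring

lemma dir_dir {M : ℕ} (u v : Fin M → ℂ) (g : Pl M) :
    dir u (dir v g) = ∑ a, ∑ b, C (u a) * C (v b) * pderiv a (pderiv b g) := by
  unfold dir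
  refine Finset.sum_congr rfl fun a _ => ?_
  rw [map_sum, Finset.mul_sum]
  refine Finset.sum_congr rfl fun b _ => ?_
  rw [Derivation.leibniz, pderiv_C, smul_zero, add_zero, smul_eq_mul]
  ring

lemma pderiv_aeval_dir {M : ℕ} (φ : Fin M → R0) (e : Fin 3) (v : Fin M → ℂ)
    (hφ : ∀ t, pderiv e (φ t) = C (v t)) (g : Pl M) :
    pderiv e (aeval φ g) = aeval φ (dir v g) := by
  rw [pderiv_aeval_chain φ e v hφ, dir, map_sum]
  refine Finset.sum_congr rfl fun t _ => ?_
  rw [map_mul]
  congr 1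
  simp

lemma constantCoeff_aeval {M : ℕ} (φ : Fin M → R0) (c₀ : Fin M → ℂ)
    (h : ∀ t, constantCoeff (φ t) = c₀ t) (g : Pl M) :
    constantCoeff (aeval φ g) = eval c₀ g := by
  have : (constantCoeff : R0 →+* ℂ).comp (aeval φ : Pl M →ₐ[ℂ] R0).toRingHom = eval c₀ := by
    refine MvPolynomial.ringHom_ext ?_ ?_
    · intro a; simp
    · intro t; simp [h]
  exact congrArg (fun f => f g) this

/-- The third derivative in three directions. -/
lemma third {M : ℕ} (φ : Fin M → R0) (c₀ u v w : Fin M → ℂ)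
    (hφ : ∀ t, φ t = C (c₀ t) + X 0 * C (u t) + X 1 * C (v t) + X 2 * C (w t)) (g : Pl M) :
    constantCoeff (pderiv 0 (pderiv 1 (pderiv 2 (aeval φ g)))) =
      eval c₀ (dir u (dir v (dir w g))) := by
  have h2 : ∀ t, pderiv 2 (φ t) = C (w t) := by
    intro t; rw [hφ]; simp [pderiv_X, Pi.single_apply]
  have h1 : ∀ t, pderiv 1 (φ t) = C (v t) := by
    intro t; rw [hφ]; simp [pderiv_X, Pi.single_apply]
  have h0 : ∀ t, pderiv 0 (φ t) = C (u t) := by
    intro t; rw [hφ]; simp [pderiv_X, Pi.single_apply]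
  rw [pderiv_aeval_dir φ 2 w h2, pderiv_aeval_dir φ 1 v h1, pderiv_aeval_dir φ 0 u h0]
  refine constantCoeff_aeval φ c₀ (fun t => ?_) _
  rw [hφ]; simp

lemma second {M : ℕ} (φ : Fin M → R0) (c₀ u v w : Fin M → ℂ)
    (hφ : ∀ t, φ t = C (c₀ t) + X 0 * C (u t) + X 1 * C (v t) + X 2 * C (w t)) (g : Pl M) :
    constantCoeff (pderiv 0 (pderiv 1 (aeval φ g))) = eval c₀ (dir u (dir v g)) := by
  have h1 : ∀ t, pderiv 1 (φ t) = C (v t) := by
    intro t; rw [hφ]; simp [pderiv_X, Pi.single_apply]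
  have h0 : ∀ t, pderiv 0 (φ t) = C (u t) := by
    intro t; rw [hφ]; simp [pderiv_X, Pi.single_apply]
  rw [pderiv_aeval_dir φ 1 v h1, pderiv_aeval_dir φ 0 u h0]
  refine constantCoeff_aeval φ c₀ (fun t => ?_) _
  rw [hφ]; simp

end Pool.Agent.R803.MM
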