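import Pool.Agent.R803.MM.Bound

/-!
# Programs for polynomials which restrict to matrix multiplication
-/

namespace Pool.Agent.R803.MM

set_option linter.unusedSectionVars false
set_option linter.unusedSimpArgs false

open MvPolynomial Pool.Agent.H53R3 Pool.Agent.H515R2.MMR

lemma tst_mul {q : ℕ} (i j j' k k' l : Fin q) :
    tst i j j' k k' l 0 * tst i j j' k k' l 1 =
      if j = j' then Matrix.single i k (X 0 * X 1) else 0 := by
  simp only [tst, Matrix.cons_val_zero, Matrix.cons_val_one]
  by_cases h : j = j'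
  · subst h
    rw [if_pos rfl, Matrix.single_mul_single_same]
  · rw [if_neg h, Matrix.single_mul_single_of_ne _ _ _ _ h]

lemma trace_tst {q : ℕ} (i j j' k k' l : Fin q) :
    (tst i j j' k k' l 0 * tst i j j' k k' l 1 * tst i j j' k k' l 2).trace =
      if j = j' ∧ k = k' ∧ l = i then X 0 * X 1 * X 2 else 0 := by
  rw [tst_mul]
  simp only [tst, Matrix.cons_val]
  by_cases h : j = j'
  · by_cases h' : k = k'
    · subst h h'
      rw [if_pos rfl, Matrix.single_mul_single_same]
      by_cases h'' : l = i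
      · subst h''
        simp [Matrix.trace, Matrix.single]
      · simp [Matrix.trace, Matrix.single, h'', Ne.symm h'']
        refine Finset.sum_eq_zero fun x _ => ?_
        rw [if_neg]
        rintro ⟨h1, h2⟩
        exact h'' (h2.trans h1.symm)
    · rw [if_pos h, Matrix.single_mul_single_of_ne _ _ _ _ h', if_neg (by tauto)]
      simp
  · rw [if_neg h, Matrix.zero_mul, if_neg (by tauto)]
    simp

lemma cc_sq (s : R0) : constantCoeff (pderiv 0 (pderiv 1 (pderiv 2 (X 0 ^ 2 * s)))) = (0 : ℂ) := by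
  have h : ∀ (e : Fin 3) (s : R0), e ≠ 0 → pderiv e (X 0 ^ 2 * s) = X 0 ^ 2 * pderiv e s := by
    intro e s he
    rw [Derivation.leibniz, Derivation.leibniz_pow, pderiv_X_of_ne (Ne.symm he)]
    simp
  rw [h 2 _ (by decide), h 1 _ (by decide), Derivation.leibniz, Derivation.leibniz_pow]
  simp

lemma cc_lin (b : ℂ) :
    constantCoeff (pderiv 0 (pderiv 1 (pderiv 2 (C b * (X 0 * X 1 * X 2) : R0)))) = b := by
  have e : (C b * (X 0 * X 1 * X 2) : R0) = C b * X 0 * X 1 * X 2 := by ring
  have h2 : pderiv 2 (C b * X 0 * X 1 * X 2 : R0) = C b * X 0 * X 1 := by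
    simp [Derivation.leibniz, pderiv_X, Pi.single_apply]
  have h1 : pderiv 1 (C b * X 0 * X 1 : R0) = C b * X 0 := by
    simp [Derivation.leibniz, pderiv_X, Pi.single_apply]
  have h0 : pderiv 0 (C b * X 0 : R0) = C b := by
    simp [Derivation.leibniz, pderiv_X, Pi.single_apply]
  rw [e, h2, h1, h0]
  simp

/-- **Third derivatives.** If a polynomial restricts, along an affine family of points, to a
function of `tr (X Y Z)` with nonzero linear term, then its complexity bounds the exponent. -/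
theorem bound3 {M L q : ℕ} (hq : 1 ≤ q) (g : Pl M)
    (hL : SLPComputes (xv (m := M)) L {algebraMap (Pl M) (RF M) g})
    (pt : (Fin 3 → Matrix (Fin q) (Fin q) R0) → Fin M → R0)
    (hpt : ∀ t, IsAff fun X => pt X t) (a b : ℂ) (hb : b ≠ 0)
    (hval : ∀ X, ∃ r, aeval (pt X) g =
      C a + C b * (X 0 * X 1 * X 2).trace + (X 0 * X 1 * X 2).trace ^ 2 * r) :
    (q : ℝ) ^ omega ≤ 6 * L := by
  classical
  obtain ⟨c₀, v, hv⟩ := exists_directions pt hpt
  -- the third derivative
  have hD : ∀ i j j' k k' l, eval c₀ (dir (v 0 i j) (dir (v 1 j' k) (dir (v 2 k' l) g))) =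
      if j = j' ∧ k = k' ∧ l = i then b else 0 := by
    intro i j j' k k' l
    rw [← third (pt (tst i j j' k k' l)) c₀ (v 0 i j) (v 1 j' k) (v 2 k' l) (hv i j j' k k' l) g]
    obtain ⟨r, hr⟩ := hval (tst i j j' k k' l)
    rw [hr, trace_tst]
    by_cases h : j = j' ∧ k = k' ∧ l = i
    · rw [if_pos h, if_pos h]
      rw [show (X 0 * X 1 * X 2 : R0) ^ 2 * r = X 0 ^ 2 * (X 1 ^ 2 * X 2 ^ 2 * r) by ring]
      simp only [map_add, cc_sq, cc_lin, pderiv_C, map_zero, zero_add, add_zero]
    · rw [if_neg h, if_neg h]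
      simp
  obtain ⟨G, hG, hf⟩ := hL
  obtain ⟨p, q', hpq⟩ := slp_derivatives dv isDer_dv dv_algebraMap xv dv_dv_xv L G hG
  obtain ⟨y, hy⟩ := Q3_repr p q' (hpq L le_rfl _ (hf _ rfl)).2
  -- common denominator
  obtain ⟨d, hd0, hd⟩ := exists_den
    (((Finset.range L) ×ˢ (Finset.univ : Finset (Fin M))).image (fun z => y z.1 z.2) ∪
    (((Finset.range L) ×ˢ (Finset.univ : Finset (Fin M))).image (fun z => p z.1 z.2) ∪
    ((Finset.range L) ×ˢ (Finset.univ : Finset (Fin M))).image (fun z => q' z.1 z.2)))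
  have hY : ∀ (k : Fin L) i, ∃ P : Pl M, algebraMap (Pl M) (RF M) P =
      algebraMap (Pl M) (RF M) d * y k i := fun k i => hd _ (Finset.mem_union_left _
    (Finset.mem_image.mpr ⟨((k : ℕ), i), by simp, rfl⟩))
  have hPp : ∀ (k : Fin L) i, ∃ P : Pl M, algebraMap (Pl M) (RF M) P =
      algebraMap (Pl M) (RF M) d * p k i := fun k i => hd _ (Finset.mem_union_right _
    (Finset.mem_union_left _ (Finset.mem_image.mpr ⟨((k : ℕ), i), by simp, rfl⟩)))
  have hQ : ∀ (k : Fin L) i, ∃ P : Pl M, algebraMap (Pl M) (RF M) P =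
      algebraMap (Pl M) (RF M) d * q' k i := fun k i => hd _ (Finset.mem_union_right _
    (Finset.mem_union_right _ (Finset.mem_image.mpr ⟨((k : ℕ), i), by simp, rfl⟩)))
  choose Y hY using hY
  choose P hPp using hPp
  choose Q hQ using hQ
  have hinj : Function.Injective (algebraMap (Pl M) (RF M)) := IsFractionRing.injective _ _
  have hpoly : ∀ i j s, d ^ 3 * pderiv i (pderiv j (pderiv s g)) =
      ∑ k : Fin L, (Y k i * (P k j * Q k s + P k s * Q k j) +
        Y k j * (P k i * Q k s + P k s * Q k i) + Y k s * (P k i * Q k j + P k j * Q k i)) := by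
    intro i j s
    apply hinj
    have h1 := congrFun (congrFun (congrFun hy i) j) s
    simp only [Ts, dv_poly] at h1
    rw [map_mul, map_pow, h1, map_sum, Finset.sum_apply, Finset.sum_apply, Finset.sum_apply,
      Finset.sum_range, Finset.mul_sum]
    refine Finset.sum_congr rfl fun k _ => ?_
    simp only [map_add, map_mul, hY, hPp, hQ, S3]
    ring
  -- a line through the point
  obtain ⟨dirv, h, e, he0, hline⟩ := exists_line c₀ hd0
  set ψ := line c₀ dirv with hψ
  have hcontr : ∀ u v w : Fin M → ℂ,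
      ∑ k : Fin L, (dt u (fun t => ψ (Y k t)) * dt v (fun t => ψ (P k t)) *
          dt w (fun t => ψ (Q k t)) +
        dt u (fun t => ψ (Y k t)) * dt v (fun t => ψ (Q k t)) * dt w (fun t => ψ (P k t)) +
        dt u (fun t => ψ (P k t)) * dt v (fun t => ψ (Y k t)) * dt w (fun t => ψ (Q k t)) +
        dt u (fun t => ψ (Q k t)) * dt v (fun t => ψ (Y k t)) * dt w (fun t => ψ (P k t)) +
        dt u (fun t => ψ (P k t)) * dt v (fun t => ψ (Q k t)) * dt w (fun t => ψ (Y k t)) +
        dt u (fun t => ψ (Q k t)) * dt v (fun t => ψ (P k t)) * dt w (fun t => ψ (Y k t))) =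
      Polynomial.X ^ (3 * h) * (e ^ 3 * ψ (dir u (dir v (dir w g)))) := by
    intro u v w
    have e1 : Polynomial.X ^ (3 * h) * (e ^ 3 * ψ (dir u (dir v (dir w g)))) =
        ψ (d ^ 3 * dir u (dir v (dir w g))) := by
      rw [map_mul, map_pow, hline]; ring
    rw [e1, dir_dir_dir, Finset.mul_sum, map_sum]
    have e2 : ∀ a, ψ (d ^ 3 * ∑ b, ∑ c, C (u a) * C (v b) * C (w c) *
        pderiv a (pderiv b (pderiv c g))) = ∑ b, ∑ c, ∑ k : Fin L,
        ((Polynomial.C (u a) * ψ (Y k a)) * (Polynomial.C (v b) * ψ (P k b)) *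
            (Polynomial.C (w c) * ψ (Q k c)) +
          (Polynomial.C (u a) * ψ (Y k a)) * (Polynomial.C (v b) * ψ (Q k b)) *
            (Polynomial.C (w c) * ψ (P k c)) +
          (Polynomial.C (u a) * ψ (P k a)) * (Polynomial.C (v b) * ψ (Y k b)) *
            (Polynomial.C (w c) * ψ (Q k c)) +
          (Polynomial.C (u a) * ψ (Q k a)) * (Polynomial.C (v b) * ψ (Y k b)) *
            (Polynomial.C (w c) * ψ (P k c)) +
          (Polynomial.C (u a) * ψ (P k a)) * (Polynomial.C (v b) * ψ (Q k b)) *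
            (Polynomial.C (w c) * ψ (Y k c)) +
          (Polynomial.C (u a) * ψ (Q k a)) * (Polynomial.C (v b) * ψ (P k b)) *
            (Polynomial.C (w c) * ψ (Y k c))) := by
      intro a
      rw [Finset.mul_sum, map_sum]
      refine Finset.sum_congr rfl fun b _ => ?_
      rw [Finset.mul_sum, map_sum]
      refine Finset.sum_congr rfl fun c _ => ?_
      have e3 : d ^ 3 * (C (u a) * C (v b) * C (w c) * pderiv a (pderiv b (pderiv c g))) =
          C (u a) * C (v b) * C (w c) * (d ^ 3 * pderiv a (pderiv b (pderiv c g))) := by ring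
      have hC : ∀ z : ℂ, ψ (C z) = Polynomial.C z := by
        intro z; simp [hψ, line]
      rw [e3, hpoly, map_mul, map_mul, map_mul, hC, hC, hC, map_sum, Finset.mul_sum]
      refine Finset.sum_congr rfl fun k _ => ?_
      simp only [map_add, map_mul]
      ring
    rw [Finset.sum_congr rfl fun a _ => e2 a]
    have e4 : ∀ f : Fin L → Fin M → Fin M → Fin M → Polynomial ℂ,
        ∑ a, ∑ b, ∑ c, ∑ k, f k a b c = ∑ k, ∑ a, ∑ b, ∑ c, f k a b c := by
      intro f
      rw [Finset.sum_congr rfl fun a _ => Finset.sum_congr rfl fun b _ => Finset.sum_comm,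
        Finset.sum_congr rfl fun a _ => Finset.sum_comm, Finset.sum_comm]
    rw [e4]
    refine Finset.sum_congr rfl fun k _ => ?_
    simp only [Finset.sum_add_distrib, sum3]
    rfl
  -- the approximate decomposition
  set s : ℂ := (b * e.eval 0 ^ 3)⁻¹ with hs
  have hAD : AD (Fin q) (Fin (L * 6)) (3 * h) := by
    refine ⟨fun t i j => dt (v 0 i j) (fun x => ψ ((![Y, Y, P, Q, P, Q] : Fin 6 → Fin L → Fin M →
        Pl M) (finProdFinEquiv.symm t).2 (finProdFinEquiv.symm t).1 x)),
      fun t i j => dt (v 1 i j) (fun x => ψ ((![P, Q, Y, Y, Q, P] : Fin 6 → Fin L → Fin M →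
        Pl M) (finProdFinEquiv.symm t).2 (finProdFinEquiv.symm t).1 x)),
      fun t i j => Polynomial.C s * dt (v 2 i j) (fun x => ψ ((![Q, P, Q, P, Y, Y] :
        Fin 6 → Fin L → Fin M →
        Pl M) (finProdFinEquiv.symm t).2 (finProdFinEquiv.symm t).1 x)),
      fun i j j' k k' l => Polynomial.C s *
        (e ^ 3 * ψ (dir (v 0 i j) (dir (v 1 j' k) (dir (v 2 k' l) g)))), ?_⟩
    intro i j j' k k' l
    constructor
    · rw [mul_left_comm, ← hcontr, Finset.mul_sum]
      rw [Equiv.sum_comp finProdFinEquiv.symm (fun t : Fin L × Fin 6 =>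
        dt (v 0 i j) (fun x => ψ ((![Y, Y, P, Q, P, Q] : Fin 6 → Fin L → Fin M →
          Pl M) t.2 t.1 x)) *
        dt (v 1 j' k) (fun x => ψ ((![P, Q, Y, Y, Q, P] : Fin 6 → Fin L → Fin M →
          Pl M) t.2 t.1 x)) *
        (Polynomial.C s * dt (v 2 k' l) (fun x => ψ ((![Q, P, Q, P, Y, Y] :
          Fin 6 → Fin L → Fin M → Pl M) t.2 t.1 x)))), Fintype.sum_prod_type]
      refine Finset.sum_congr rfl fun t _ => ?_
      rw [Fin.sum_univ_six]
      simp only [Matrix.cons_val_zero, Matrix.cons_val_one, Matrix.cons_val]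
      ring
    · rw [Polynomial.eval_mul, Polynomial.eval_C, Polynomial.eval_mul, Polynomial.eval_pow, hψ,
        line_eval]
      have e5 : (fun t => c₀ t + 0 * dirv t) = c₀ := by funext t; ring
      rw [e5, hD, hs]
      split_ifs
      · field_simp
      · ring
  have := hAD.omega_le hq
  push_cast at this
  linarith

/-- **Second derivatives.** If polynomials `f i k` restrict, along an affine family of points, to a
multiple of the entries of `X Y`, then their complexity bounds the exponent. -/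
theorem bound2 {M L q : ℕ} (hq : 1 ≤ q) (f : Fin q → Fin q → Pl M)
    (hL : SLPComputes (xv (m := M)) L {z | ∃ i k, z = algebraMap (Pl M) (RF M) (f i k)})
    (pt : (Fin 3 → Matrix (Fin q) (Fin q) R0) → Fin M → R0)
    (hpt : ∀ t, IsAff fun X => pt X t) (b : ℂ) (hb : b ≠ 0)
    (hval : ∀ X i k, aeval (pt X) (f i k) = C b * (X 0 * X 1) i k) :
    (q : ℝ) ^ omega ≤ 2 * L := by
  classical
  obtain ⟨c₀, v, hv⟩ := exists_directions pt hpt
  have hD : ∀ i j j' k k' l, eval c₀ (dir (v 0 i j) (dir (v 1 j' k) (f l k'))) =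
      if j = j' ∧ k = k' ∧ l = i then b else 0 := by
    intro i j j' k k' l
    rw [← second (pt (tst i j j' k k' l)) c₀ (v 0 i j) (v 1 j' k) (v 2 k' l)
      (hv i j j' k k' l) (f l k'), hval, tst_mul]
    by_cases h : j = j'
    · rw [if_pos h]
      by_cases h' : k = k' ∧ l = i
      · obtain ⟨rfl, rfl⟩ := h'
        have h0 : pderiv 0 (C b * (X 0) : R0) = C b := by
          simp [Derivation.leibniz, pderiv_X, Pi.single_apply]
        have h1 : pderiv 1 (C b * (X 0 * X 1) : R0) = C b * X 0 := by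
          simp [Derivation.leibniz, pderiv_X, Pi.single_apply]
        simp [Matrix.single, h, h0, h1]
      · have hz : Matrix.single i k (X 0 * X 1 : R0) l k' = 0 := by
          simp only [Matrix.single, Matrix.of_apply]
          rw [if_neg]
          rintro ⟨h1, h2⟩
          exact h' ⟨h2, h1.symm⟩
        rw [hz, if_neg (by tauto)]
        simp
    · rw [if_neg h, if_neg (by tauto)]
      simp
  obtain ⟨G, hG, hf⟩ := hL
  obtain ⟨p, q', hpq⟩ := slp_derivatives dv isDer_dv dv_algebraMap xv dv_dv_xv L G hG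
  have hc := fun i k => Q2_repr p q' (hpq L le_rfl _ (hf _ ⟨i, k, rfl⟩)).1
  choose c hc using hc
  obtain ⟨d, hd0, hd⟩ := exists_den
    (((Finset.range L) ×ˢ (Finset.univ : Finset (Fin q × Fin q))).image
      (fun z => c z.2.1 z.2.2 z.1) ∪
    (((Finset.range L) ×ˢ (Finset.univ : Finset (Fin M))).image (fun z => p z.1 z.2) ∪
    ((Finset.range L) ×ˢ (Finset.univ : Finset (Fin M))).image (fun z => q' z.1 z.2)))
  have hY : ∀ (k : Fin L) i j, ∃ P : Pl M, algebraMap (Pl M) (RF M) P =
      algebraMap (Pl M) (RF M) d * c i j k := fun k i j => hd _ (Finset.mem_union_left _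
    (Finset.mem_image.mpr ⟨((k : ℕ), (i, j)), by simp, rfl⟩))
  have hPp : ∀ (k : Fin L) i, ∃ P : Pl M, algebraMap (Pl M) (RF M) P =
      algebraMap (Pl M) (RF M) d * p k i := fun k i => hd _ (Finset.mem_union_right _
    (Finset.mem_union_left _ (Finset.mem_image.mpr ⟨((k : ℕ), i), by simp, rfl⟩)))
  have hQ : ∀ (k : Fin L) i, ∃ P : Pl M, algebraMap (Pl M) (RF M) P =
      algebraMap (Pl M) (RF M) d * q' k i := fun k i => hd _ (Finset.mem_union_right _
    (Finset.mem_union_right _ (Finset.mem_image.mpr ⟨((k : ℕ), i), by simp, rfl⟩)))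
  choose Y hY using hY
  choose P hPp using hPp
  choose Q hQ using hQ
  have hinj : Function.Injective (algebraMap (Pl M) (RF M)) := IsFractionRing.injective _ _
  have hpoly : ∀ o o' i j, d ^ 3 * pderiv i (pderiv j (f o o')) =
      ∑ k : Fin L, Y k o o' * (P k i * Q k j + P k j * Q k i) := by
    intro o o' i j
    apply hinj
    have h1 := congrFun (congrFun (hc o o') i) j
    simp only [Hs, dv_poly] at h1
    rw [map_mul, map_pow, h1, map_sum, Finset.sum_apply, Finset.sum_apply,
      Finset.sum_range, Finset.mul_sum]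
    refine Finset.sum_congr rfl fun k _ => ?_
    simp only [map_add, map_mul, hY, hPp, hQ, S2, Pi.smul_apply, smul_eq_mul]
    ring
  obtain ⟨dirv, h, e, he0, hline⟩ := exists_line c₀ hd0
  set ψ := line c₀ dirv with hψ
  have hcontr : ∀ (u v : Fin M → ℂ) (o o' : Fin q),
      ∑ k : Fin L, (dt u (fun t => ψ (P k t)) * dt v (fun t => ψ (Q k t)) * ψ (Y k o o') +
        dt u (fun t => ψ (Q k t)) * dt v (fun t => ψ (P k t)) * ψ (Y k o o')) =
      Polynomial.X ^ (3 * h) * (e ^ 3 * ψ (dir u (dir v (f o o')))) := by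
    intro u v o o'
    have e1 : Polynomial.X ^ (3 * h) * (e ^ 3 * ψ (dir u (dir v (f o o')))) =
        ψ (d ^ 3 * dir u (dir v (f o o'))) := by
      rw [map_mul, map_pow, hline]; ring
    rw [e1, dir_dir, Finset.mul_sum, map_sum]
    have e2 : ∀ a, ψ (d ^ 3 * ∑ b, C (u a) * C (v b) *
        pderiv a (pderiv b (f o o'))) = ∑ b, ∑ k : Fin L,
        ((Polynomial.C (u a) * ψ (P k a)) * (Polynomial.C (v b) * ψ (Q k b)) * ψ (Y k o o') +
          (Polynomial.C (u a) * ψ (Q k a)) * (Polynomial.C (v b) * ψ (P k b)) *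
            ψ (Y k o o')) := by
      intro a
      rw [Finset.mul_sum, map_sum]
      refine Finset.sum_congr rfl fun b _ => ?_
      have e3 : d ^ 3 * (C (u a) * C (v b) * pderiv a (pderiv b (f o o'))) =
          C (u a) * C (v b) * (d ^ 3 * pderiv a (pderiv b (f o o'))) := by ring
      have hC : ∀ z : ℂ, ψ (C z) = Polynomial.C z := by
        intro z; simp [hψ, line]
      rw [e3, hpoly, map_mul, map_mul, hC, hC, map_sum, Finset.mul_sum]
      refine Finset.sum_congr rfl fun k _ => ?_
      simp only [map_add, map_mul]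
      ring
    rw [Finset.sum_congr rfl fun a _ => e2 a]
    have e4 : ∀ f : Fin L → Fin M → Fin M → Polynomial ℂ,
        ∑ a, ∑ b, ∑ k, f k a b = ∑ k, ∑ a, ∑ b, f k a b := by
      intro f
      rw [Finset.sum_congr rfl fun a _ => Finset.sum_comm, Finset.sum_comm]
    rw [e4]
    refine Finset.sum_congr rfl fun k _ => ?_
    simp only [Finset.sum_add_distrib, ← Finset.sum_mul, sum2]
    rfl
  set s : ℂ := (b * e.eval 0 ^ 3)⁻¹ with hs
  have hAD : AD (Fin q) (Fin (L * 2)) (3 * h) := by
    refine ⟨fun t i j => dt (v 0 i j) (fun x => ψ ((![P, Q] : Fin 2 → Fin L → Fin M →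
        Pl M) (finProdFinEquiv.symm t).2 (finProdFinEquiv.symm t).1 x)),
      fun t i j => dt (v 1 i j) (fun x => ψ ((![Q, P] : Fin 2 → Fin L → Fin M →
        Pl M) (finProdFinEquiv.symm t).2 (finProdFinEquiv.symm t).1 x)),
      fun t k' l => Polynomial.C s * ψ (Y (finProdFinEquiv.symm t).1 l k'),
      fun i j j' k k' l => Polynomial.C s *
        (e ^ 3 * ψ (dir (v 0 i j) (dir (v 1 j' k) (f l k')))), ?_⟩
    intro i j j' k k' l
    constructor
    · rw [mul_left_comm, ← hcontr, Finset.mul_sum]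
      rw [Equiv.sum_comp finProdFinEquiv.symm (fun t : Fin L × Fin 2 =>
        dt (v 0 i j) (fun x => ψ ((![P, Q] : Fin 2 → Fin L → Fin M →
          Pl M) t.2 t.1 x)) *
        dt (v 1 j' k) (fun x => ψ ((![Q, P] : Fin 2 → Fin L → Fin M →
          Pl M) t.2 t.1 x)) *
        (Polynomial.C s * ψ (Y t.1 l k'))), Fintype.sum_prod_type]
      refine Finset.sum_congr rfl fun t _ => ?_
      rw [Fin.sum_univ_two]
      simp only [Matrix.cons_val_zero, Matrix.cons_val_one, Matrix.cons_val]
      ring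
    · rw [Polynomial.eval_mul, Polynomial.eval_C, Polynomial.eval_mul, Polynomial.eval_pow, hψ,
        line_eval]
      have e5 : (fun t => c₀ t + 0 * dirv t) = c₀ := by funext t; ring
      rw [e5, hD, hs]
      split_ifs
      · field_simp
      · ring
  have := hAD.omega_le hq
  push_cast at this
  linarith

end Pool.Agent.R803.MM
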