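import Pool.Agent.R803.MM.Words

/-!
# Traces of words at cyclic patterns
-/

namespace Pool.Agent.R803.MM

set_option linter.unusedSectionVars false
set_option linter.unusedSimpArgs false

open Matrix

/-- The next vertex of the cycle with `d` vertices. -/
def nx (d : ℕ) (p : Fin d) : Fin d := ⟨(p.1 + 1) % d, Nat.mod_lt _ p.pos⟩

lemma nx_iterate {d : ℕ} (k : ℕ) (p : Fin d) : ((nx d)^[k] p).val = (p.val + k) % d := by
  induction k with
  | zero => simp [Nat.mod_eq_of_lt p.2]
  | succ k ih =>
    rw [Function.iterate_succ_apply', nx]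
    simp only [ih]
    rw [Nat.mod_add_mod, add_assoc]

lemma nx_iterate_eq_self {d : ℕ} {k : ℕ} {p : Fin d} (h : (nx d)^[k] p = p) : d ∣ k := by
  have h1 := congrArg Fin.val h
  rw [nx_iterate] at h1
  have h2 : (p.val + k) % d = (p.val + 0) % d := by
    rw [h1, add_zero, Nat.mod_eq_of_lt p.2]
  have h3 : p.val + k ≡ p.val + 0 [MOD d] := h2
  have h4 := Nat.ModEq.add_left_cancel' _ h3
  exact (Nat.modEq_zero_iff_dvd).mp h4

lemma nx_iterate_self {d : ℕ} (p : Fin d) : (nx d)^[d] p = p := by
  apply Fin.ext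
  rw [nx_iterate, Nat.add_mod_right, Nat.mod_eq_of_lt p.2]

lemma exists_nx_iterate {d : ℕ} (h0 : 0 < d) (p : Fin d) : (nx d)^[p.val] ⟨0, h0⟩ = p := by
  apply Fin.ext
  rw [nx_iterate, zero_add, Nat.mod_eq_of_lt p.2]

section cyc

variable {R : Type*} [CommRing R] {κ : Type*} [Fintype κ] [DecidableEq κ] {Λ : Type*}
  [DecidableEq Λ]

/-- The cyclic pattern of the word `u` with blocks `X`. -/
def cycM (u : List Λ) (X : Fin u.length → Matrix κ κ R) (l : Λ) :
    Matrix (Fin u.length × κ) (Fin u.length × κ) R :=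
  pat (nx u.length) (fun p => u[p]) X l

/-- Number of places of the cycle of `u` where one can read `w`. -/
def cnt (u w : List Λ) : ℕ :=
  (Finset.univ.filter fun p : Fin u.length => Lab (nx u.length) (fun p => u[p]) w p).card

lemma cnt_self_pos {u : List Λ} (hu : u ≠ []) : 0 < cnt u u := by
  unfold cnt
  apply Finset.card_pos.mpr
  refine ⟨⟨0, List.length_pos_iff.mpr hu⟩, ?_⟩
  simp only [Finset.mem_filter, Finset.mem_univ, true_and, Lab_iff]
  intro q hq
  have h1 : ((nx u.length)^[q] ⟨0, List.length_pos_iff.mpr hu⟩).val = q := by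
    rw [nx_iterate, zero_add, Nat.mod_eq_of_lt hq]
  simp only [Fin.getElem_fin, h1]

lemma rotated_of_cnt {u w : List Λ} (hl : w.length = u.length) (h : cnt u w ≠ 0) : u ~r w := by
  unfold cnt at h
  obtain ⟨p, hp⟩ := Finset.card_ne_zero.mp h
  simp only [Finset.mem_filter, Finset.mem_univ, true_and, Lab_iff] at hp
  refine ⟨p.val, ?_⟩
  apply List.ext_getElem (by simp [hl])
  intro q h1 h2
  rw [List.getElem_rotate, ← hp q h2]
  simp only [Fin.getElem_fin, nx_iterate]
  congr 2
  rw [add_comm]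

lemma trace_cyc_short {u w : List Λ} (X : Fin u.length → Matrix κ κ R) (hw : w ≠ [])
    (h : w.length < u.length) : (wv (cycM u X) w).trace = 0 := by
  unfold cycM
  rw [trace_wv_pat]
  refine Finset.sum_eq_zero fun p _ => if_neg ?_
  rintro ⟨h1, -⟩
  have h2 := nx_iterate_eq_self h1
  exact absurd (Nat.le_of_dvd (List.length_pos_iff.mpr hw) h2) (by omega)

lemma trace_prodX_cyc {d : ℕ} (h0 : 0 < d) (X : Fin d → Matrix κ κ R) (p : Fin d) :
    (prodX (nx d) X d p).trace = (prodX (nx d) X d ⟨0, h0⟩).trace := by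
  rw [← exists_nx_iterate h0 p]
  generalize p.val = j
  obtain ⟨d', rfl⟩ : ∃ d', d = d' + 1 := ⟨d - 1, by omega⟩
  induction j with
  | zero => rfl
  | succ j ih =>
    rw [Function.iterate_succ_apply', trace_prodX_next _ _ (nx_iterate_self _), ih]

lemma trace_cyc_eq {u w : List Λ} (X : Fin u.length → Matrix κ κ R) (h0 : 0 < u.length)
    (h : w.length = u.length) :
    (wv (cycM u X) w).trace = cnt u w * (prodX (nx u.length) X u.length ⟨0, h0⟩).trace := by
  unfold cycM
  rw [trace_wv_pat, h]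
  have : ∀ p : Fin u.length, (if (nx u.length)^[u.length] p = p ∧
      Lab (nx u.length) (fun p => u[p]) w p then (prodX (nx u.length) X u.length p).trace else 0) =
      if Lab (nx u.length) (fun p => u[p]) w p then
        (prodX (nx u.length) X u.length ⟨0, h0⟩).trace else 0 := by
    intro p
    have h1 := nx_iterate_self p
    simp only [h1, true_and]
    split_ifs
    · exact trace_prodX_cyc h0 X p
    · rfl
  rw [Finset.sum_congr rfl fun p _ => this p, ← Finset.sum_filter, Finset.sum_const, nsmul_eq_mul]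
  rfl

/-- three consecutive blocks, all others are `1` -/
def X3 {d : ℕ} (X Y Z : Matrix κ κ R) (p : Fin d) : Matrix κ κ R :=
  if p.val = 0 then X else if p.val = 1 then Y else if p.val = 2 then Z else 1

lemma prodX_X3 {d : ℕ} (hd : 3 ≤ d) (X Y Z : Matrix κ κ R) :
    prodX (nx d) (X3 X Y Z) d ⟨0, by omega⟩ = X * Y * Z := by
  obtain ⟨e, rfl⟩ : ∃ e, d = e + 3 := ⟨d - 3, by omega⟩
  have e0 : (⟨0, by omega⟩ : Fin (e + 3)).val = 0 := rfl
  have e1 : (nx (e + 3) ⟨0, by omega⟩).val = 1 := by
    simp [nx, Nat.mod_eq_of_lt]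
  have e2 : (nx (e + 3) (nx (e + 3) ⟨0, by omega⟩)).val = 2 := by
    have := nx_iterate 2 (⟨0, by omega⟩ : Fin (e + 3))
    rw [Nat.mod_eq_of_lt (by omega)] at this
    simpa using this
  rw [prodX, prodX, prodX, prodX_one]
  · simp only [X3, e0, e1, e2]
    simp [mul_assoc]
  · intro j hj
    have h3 : ((nx (e + 3))^[j] (nx (e + 3) (nx (e + 3) (nx (e + 3) ⟨0, by omega⟩)))).val =
        j + 3 := by
      have := nx_iterate (j + 3) (⟨0, by omega⟩ : Fin (e + 3))
      rw [zero_add, Nat.mod_eq_of_lt (by omega)] at this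
      rw [← this]
      rw [Function.iterate_succ_apply, Function.iterate_succ_apply, Function.iterate_succ_apply]
    simp only [X3, h3]
    simp

/-- one block `X`, all others are `1` -/
def X1 {d : ℕ} (X : Matrix κ κ R) (p : Fin d) : Matrix κ κ R := if p.val = 0 then X else 1

lemma prodX_X1 {d : ℕ} (hd : 0 < d) (X : Matrix κ κ R) :
    prodX (nx d) (X1 X) d ⟨0, hd⟩ = X := by
  obtain ⟨e, rfl⟩ : ∃ e, d = e + 1 := ⟨d - 1, by omega⟩
  rw [prodX, prodX_one]
  · simp [X1]
  · intro j hj
    have h3 : ((nx (e + 1))^[j] (nx (e + 1) ⟨0, hd⟩)).val = j + 1 := by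
      have := nx_iterate (j + 1) (⟨0, hd⟩ : Fin (e + 1))
      rw [zero_add, Nat.mod_eq_of_lt (by omega)] at this
      rw [← this, Function.iterate_succ_apply]
    simp only [X1, h3]
    simp

/-! ### Chains -/

/-- `0 → 1 → … → e` with blocks `X`, `Y` in the first two places, identities afterwards; nothing
leads out of `e`. -/
def XC {d : ℕ} (X Y : Matrix κ κ R) (p : Fin d) : Matrix κ κ R :=
  if p.val = 0 then X else if p.val = 1 then Y else if p.val + 1 = d then 0 else 1

lemma XC_last {d : ℕ} (hd : 2 ≤ d) (X Y : Matrix κ κ R) :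
    XC (d := d + 1) X Y ⟨d, by omega⟩ = 0 := by
  simp only [XC]
  rw [if_neg (by omega), if_neg (by omega), if_pos trivial]

lemma trace_chain {u w : List Λ} {e : ℕ} (he : 2 ≤ e) (hu : u.length = e + 1)
    (X Y : Matrix κ κ R) (hw : w ≠ []) : (wv (cycM u (XC X Y)) w).trace = 0 := by
  unfold cycM
  rw [trace_wv_pat]
  refine Finset.sum_eq_zero fun p _ => ?_
  split_ifs with h1
  · have h2 := Nat.le_of_dvd (List.length_pos_iff.mpr hw) (nx_iterate_eq_self h1.1)
    rw [prodX_zero]
    · simp
    · refine ⟨e - p.val, by have := p.2; omega, ?_⟩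
      have h3 : ((nx u.length)^[e - p.val] p).val = e := by
        rw [nx_iterate]
        have := p.2
        rw [Nat.mod_eq_of_lt (by omega)]
        omega
      simp only [XC, h3, hu]
      rw [if_neg (by omega), if_neg (by omega), if_pos trivial]
  · rfl

lemma entry_chain {v w : List Λ} {l₀ : Λ} {e : ℕ} (he : 2 ≤ e) (hv : v.length = e)
    (X Y : Matrix κ κ R) (a b : κ) (h0 : 0 < (v ++ [l₀]).length) (h1 : e < (v ++ [l₀]).length) :
    wv (cycM (v ++ [l₀]) (XC X Y)) w (⟨0, h0⟩, a) (⟨e, h1⟩, b) =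
      if w = v then (X * Y) a b else 0 := by
  have hu : (v ++ [l₀]).length = e + 1 := by simp [hv]
  unfold cycM
  rw [wv_pat]
  by_cases hw : w = v
  · subst hw
    have c1 : (⟨e, h1⟩ : Fin (w ++ [l₀]).length) = (nx (w ++ [l₀]).length)^[w.length] ⟨0, h0⟩ := by
      apply Fin.ext
      rw [nx_iterate, zero_add, Nat.mod_eq_of_lt (by omega)]
      exact hv.symm
    have c2 : Lab (nx (w ++ [l₀]).length) (fun p => (w ++ [l₀])[p]) w ⟨0, h0⟩ := by
      rw [Lab_iff]
      intro q hq
      have h2 : ((nx (w ++ [l₀]).length)^[q] ⟨0, h0⟩).val = q := by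
        rw [nx_iterate, zero_add, Nat.mod_eq_of_lt (by omega)]
      simp only [Fin.getElem_fin, h2]
      rw [List.getElem_append_left hq]
    rw [if_pos ⟨c1, c2⟩, if_pos rfl, hv]
    obtain ⟨f, rfl⟩ : ∃ f, e = f + 2 := ⟨e - 2, by omega⟩
    have e1 : (nx (w ++ [l₀]).length ⟨0, h0⟩).val = 1 := by
      simp only [nx, zero_add]
      exact Nat.mod_eq_of_lt (by omega)
    rw [prodX, prodX, prodX_one]
    · simp only [XC, e1]
      simp
    · intro j hj
      have h3 : ((nx (w ++ [l₀]).length)^[j] (nx (w ++ [l₀]).length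
          (nx (w ++ [l₀]).length ⟨0, h0⟩))).val = j + 2 := by
        have := nx_iterate (j + 2) (⟨0, h0⟩ : Fin (w ++ [l₀]).length)
        rw [zero_add, Nat.mod_eq_of_lt (by omega)] at this
        rw [← this, Function.iterate_succ_apply, Function.iterate_succ_apply]
      simp only [XC, h3, hu]
      rw [if_neg (by omega), if_neg (by omega), if_neg (by omega)]
  · rw [if_neg hw]
    by_cases hc : (⟨e, h1⟩ : Fin (v ++ [l₀]).length) = (nx (v ++ [l₀]).length)^[w.length] ⟨0, h0⟩ ∧
        Lab (nx (v ++ [l₀]).length) (fun p => (v ++ [l₀])[p]) w ⟨0, h0⟩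
    · rw [if_pos hc]
      obtain ⟨c1, c2⟩ := hc
      by_cases hl : e < w.length
      · rw [prodX_zero]
        · simp
        · refine ⟨e, hl, ?_⟩
          have h3 : ((nx (v ++ [l₀]).length)^[e] ⟨0, h0⟩).val = e := by
            rw [nx_iterate, zero_add, Nat.mod_eq_of_lt (by omega)]
          simp only [XC, h3, hu]
          rw [if_neg (by omega), if_neg (by omega), if_pos trivial]
      · exfalso
        apply hw
        have h3 := congrArg Fin.val c1
        rw [nx_iterate, zero_add, Nat.mod_eq_of_lt (by omega)] at h3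
        simp only at h3
        apply List.ext_getElem (by omega)
        intro q hq1 hq2
        have h4 := (Lab_iff _ _ _ _).mp c2 q hq1
        have h2 : ((nx (v ++ [l₀]).length)^[q] ⟨0, h0⟩).val = q := by
          rw [nx_iterate, zero_add, Nat.mod_eq_of_lt (by omega)]
        simp only [Fin.getElem_fin, h2] at h4
        rw [List.getElem_append_left hq2] at h4
        exact h4.symm
    · rw [if_neg hc]

end cyc

end Pool.Agent.R803.MM
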