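import Pool.Agent.R803.MM.Words
import Pool.Agent.H53R3.Slp
import Pool.Agent.H53R3.RatDer
import Pool.Agent.H515R2.MMR.Rank

/-!
# Trace polynomials with transposes, and their complexity
-/

namespace Pool.Agent.R803.MM

open MvPolynomial Pool.Agent.H53R3 Pool.Agent.H515R2.MMR

/-- Formal expressions `P = ∑_u P_u · u`: finite sums over words `u` in the matrices
`A_1, …, A_m, A_1ᵀ, …, A_mᵀ`, where each coefficient `P_u` is a polynomial in the traces of words
(the variable `w` stands for the trace of the word `w`). -/
abbrev TracePoly (m : ℕ) := Word m →₀ MvPolynomial (Word m) ℂ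

namespace TracePoly

variable {m : ℕ}

/-- The value `∑_u P_u(tr w(A)) · u(A)` at matrices `A_1, …, A_m` over a commutative algebra. -/
noncomputable def value (P : TracePoly m) {R : Type*} [CommRing R] [Algebra ℂ R] {ι : Type*}
    [Fintype ι] [DecidableEq ι] (A : Fin m → Matrix ι ι R) : Matrix ι ι R :=
  P.sum fun u F => aeval (fun w => (wordVal A w).trace) F • wordVal A u

/-- All words have length at most `D`, all coefficients have degree at most `D`. -/
def Bounded (D : ℕ) (P : TracePoly m) : Prop :=
  ∀ u ∈ P.support, u.length ≤ D ∧ (P u).totalDegree ≤ D ∧ ∀ w ∈ (P u).vars, w.length ≤ D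

/-- Only the words `1`, `A_i`, `A_iᵀ`, and only traces of words of length at most two. -/
def Simple (P : TracePoly m) : Prop :=
  ∀ u ∈ P.support, u.length ≤ 1 ∧ ∀ w ∈ (P u).vars, w.length ≤ 2

/-- On `n × n` matrices `P` agrees with a simple expression. -/
def SimpleAt (n D : ℕ) (P : TracePoly m) : Prop :=
  ∃ Q : TracePoly m, Q.Bounded D ∧ Q.Simple ∧
    ∀ A : Fin m → Matrix (Fin n) (Fin n) ℂ, P.value A = Q.value A

end TracePoly

/-- Generic `n × n` matrices. -/
noncomputable def gen (m n : ℕ) (i : Fin m) : Matrix (Fin n) (Fin n) (Pl (m * (n * n))) :=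
  Matrix.of fun a b => X (finProdFinEquiv (i, finProdFinEquiv (a, b)))

/-- The entries of the value of `P` at generic `n × n` matrices, as rational functions. -/
def outputs {m : ℕ} (n : ℕ) (P : TracePoly m) : Set (RF (m * (n * n))) :=
  {z | ∃ a b, z = algebraMap _ (RF (m * (n * n))) (P.value (gen m n) a b)}

/-- The least number of multiplications and divisions in a program that computes all entries of
`P(A_1, …, A_m)` for generic `n × n` matrices (additions, subtractions and multiplications by
complex constants are free). -/
noncomputable def cost {m : ℕ} (n : ℕ) (P : TracePoly m) : ℕ :=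
  sInf {L | SLPComputes (xv (m := m * (n * n))) L (outputs n P)}

end Pool.Agent.R803.MM
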