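import Pool.Agent.R803.MM.Upper

/-!
# Programs for trace polynomials
-/

namespace Pool.Agent.R803.MM

set_option linter.unusedSectionVars false
set_option linter.unusedSimpArgs false

open MvPolynomial Pool.Agent.H53R3 Pool.Agent.H515R2.MMR

variable {m : ℕ}

/-- Generic matrices with entries in the field of rational functions. -/
noncomputable def genR (m n : ℕ) (i : Fin m) : Matrix (Fin n) (Fin n) (RF (m * (n * n))) :=
  (gen m n i).map (algebraMap _ _)

lemma value_apply {R : Type*} [CommRing R] [Algebra ℂ R] {ι : Type*} [Fintype ι] [DecidableEq ι]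
    (P : TracePoly m) (A : Fin m → Matrix ι ι R) (a b : ι) :
    P.value A a b = ∑ u ∈ P.support, aeval (fun w => (wordVal A w).trace) (P u) *
      wordVal A u a b := by
  unfold TracePoly.value Finsupp.sum
  rw [Matrix.sum_apply]
  rfl

lemma value_genR (n : ℕ) (P : TracePoly m) (a b : Fin n) :
    P.value (genR m n) a b = algebraMap _ (RF (m * (n * n))) (P.value (gen m n) a b) := by
  have := value_map (IsScalarTower.toAlgHom ℂ (Pl (m * (n * n))) (RF (m * (n * n))))
    (gen m n) P
  have h2 := congrFun (congrFun this a) b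
  rw [Matrix.map_apply] at h2
  exact h2

lemma letter_mem {n : ℕ} (l : Fin m × Bool) (a b : Fin n) (S : Set (RF (m * (n * n)))) :
    letter (genR m n) l a b ∈ sp (xv (m := m * (n * n))) S := by
  obtain ⟨i, c⟩ := l
  cases c
  · exact input_mem_sp S (finProdFinEquiv (i, finProdFinEquiv (a, b)))
  · exact input_mem_sp S (finProdFinEquiv (i, finProdFinEquiv (b, a)))

lemma one_entry_mem {n M : ℕ} (a b : Fin n) (S : Set (RF M)) :
    (1 : Matrix (Fin n) (Fin n) (RF M)) a b ∈ sp (xv (m := M)) S := by
  rw [Matrix.one_apply]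
  split_ifs
  · exact one_mem_sp S
  · exact Submodule.zero_mem _

/-- Words of length at most `D`. -/
noncomputable def Wd (m D : ℕ) : Finset (Word m) :=
  (List.finite_length_le (Fin m × Bool) D).toFinset

lemma mem_Wd {D : ℕ} {w : Word m} : w ∈ Wd m D ↔ w.length ≤ D := by
  simp [Wd]

lemma slp_zero {M : ℕ} : SLPComputes (xv (m := M)) 0 ∅ :=
  ⟨fun _ => 0, fun l hl => absurd hl (Nat.not_lt_zero l), by simp⟩

theorem words_upper (m D : ℕ) : ∃ c : ℕ, ∀ n : ℕ, SLPComputes (xv (m := m * (n * n))) (c * rk n)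
    {z | ∃ (w : Word m) (a b : Fin n), w.length ≤ D ∧ z = wordVal (genR m n) w a b} := by
  classical
  induction D with
  | zero =>
    refine ⟨0, fun n => ?_⟩
    rw [zero_mul]
    refine slp_span slp_zero ?_
    rintro z ⟨w, a, b, hw, rfl⟩
    have : w = [] := List.length_eq_zero_iff.mp (by omega)
    subst this
    rw [wordVal, wv_nil]
    exact one_entry_mem a b _
  | succ D ih =>
    obtain ⟨c, hc⟩ := ih
    refine ⟨c + ((Finset.univ : Finset (Fin m × Bool)) ×ˢ Wd m D).card, fun n => ?_⟩
    rw [add_mul]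
    have h1 := slp_tasks ((Finset.univ : Finset (Fin m × Bool)) ×ˢ Wd m D)
      (fun t => {z | ∃ a b : Fin n, z = (letter (genR m n) t.1 * wordVal (genR m n) t.2) a b})
      (rk n) (hc n) ?_
    · refine slp_span h1 ?_
      rintro z ⟨w, a, b, hw, rfl⟩
      rcases w with _ | ⟨l, w⟩
      · rw [wordVal, wv_nil]
        exact one_entry_mem a b _
      · refine mem_sp (Or.inr ?_)
        simp only [Set.mem_iUnion]
        refine ⟨(l, w), ?_, a, b, ?_⟩
        · rw [Finset.mem_product]
          exact ⟨Finset.mem_univ _, mem_Wd.mpr (by simpa using hw)⟩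
        · rw [wordVal, wv_cons]
          rfl
    · intro t ht S' L' hsub h'
      refine slp_matmul h' _ _ (fun a b => letter_mem _ a b _) fun a b => ?_
      refine mem_sp (hsub ⟨t.2, a, b, ?_, rfl⟩)
      exact mem_Wd.mp (Finset.mem_product.mp ht).2

lemma aeval_eq_sum {σ K : Type*} [Field K] [Algebra ℂ K] (τ : σ → K) (F : MvPolynomial σ ℂ) :
    aeval τ F = ∑ s ∈ F.support, F.coeff s • s.prod fun w k => τ w ^ k := by
  rw [aeval_def, eval₂_eq]
  refine Finset.sum_congr rfl fun s _ => ?_
  rw [Algebra.smul_def]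
  rfl

lemma support_sum_le {D : ℕ} {P : TracePoly m} (hP : P.Bounded D) {u : Word m}
    (hu : u ∈ P.support) {s : Word m →₀ ℕ} (hs : s ∈ (P u).support) :
    s.support ⊆ (P u).vars ∧ s.sum (fun _ k => k) ≤ D := by
  refine ⟨fun w hw => (mem_vars_iff_mem_support w).mpr ⟨s, hs, hw⟩, ?_⟩
  exact (le_totalDegree hs).trans (hP u hu).2.1

/-- The set of monomials of bounded degree. -/
noncomputable def Mon (W : Finset (Word m)) (D : ℕ) : Finset (Word m →₀ ℕ) := by
  classical
  exact (Finset.range (D + 1)).biUnion fun j => Finset.finsuppAntidiag W j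

lemma mem_Mon {W : Finset (Word m)} {D : ℕ} {s : Word m →₀ ℕ} :
    s ∈ Mon W D ↔ s.support ⊆ W ∧ s.sum (fun _ k => k) ≤ D := by
  classical
  unfold Mon
  simp only [Finset.mem_biUnion, Finset.mem_range, Finset.mem_finsuppAntidiag]
  constructor
  · rintro ⟨j, hj, h1, h2⟩
    refine ⟨h2, ?_⟩
    rw [Finsupp.sum, Finset.sum_subset h2 fun w _ hw => by simpa using hw]
    rw [show ∑ x ∈ W, s x = j from h1]
    omega
  · rintro ⟨h1, h2⟩
    refine ⟨s.sum fun _ k => k, by omega, ?_, h1⟩
    rw [Finsupp.sum]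
    exact (Finset.sum_subset h1 fun w _ hw => by simpa using hw).symm

/-- **Programs for all trace polynomials.** -/
theorem upper (m D : ℕ) : ∃ c : ℕ, ∀ (n : ℕ) (P : TracePoly m), P.Bounded D →
    SLPComputes (xv (m := m * (n * n))) (c * rk n) (outputs n P) := by
  classical
  obtain ⟨c, hc⟩ := words_upper m D
  refine ⟨c + ∑ j ∈ Finset.range (D + 1), (Finset.finsuppAntidiag (Wd m D) j).card +
    (Mon (Wd m D) D ×ˢ Wd m D).card, fun n P hP => ?_⟩
  rcases Nat.eq_zero_or_pos n with hn | hn
  · subst hn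
    refine slp_mono (slp_span slp_zero ?_) (Nat.zero_le _)
    rintro z ⟨a, -, -⟩
    exact a.elim0
  have hr : 1 ≤ rk n := one_le_rk hn
  set τ : Word m → RF (m * (n * n)) := fun w => (wordVal (genR m n) w).trace with hτ
  have h1 := slp_monomials (Wd m D) τ D (hc n) ?_
  · have h2 := slp_tasks (Mon (Wd m D) D ×ˢ Wd m D)
      (fun t => {z | ∃ a b : Fin n, z = (((t.1.prod fun w k => τ w ^ k) •
        (1 : Matrix (Fin n) (Fin n) (RF (m * (n * n))))) * wordVal (genR m n) t.2) a b})
      (rk n) h1 ?_
    · refine slp_mono (slp_span h2 ?_) ?_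
      · rintro z ⟨a, b, rfl⟩
        rw [← value_genR, value_apply]
        refine Submodule.sum_mem _ fun u hu => ?_
        rw [aeval_eq_sum, Finset.sum_mul]
        refine Submodule.sum_mem _ fun s hs => ?_
        rw [smul_mul_assoc]
        refine Submodule.smul_mem _ _ (mem_sp (Or.inr ?_))
        simp only [Set.mem_iUnion]
        obtain ⟨e1, e2⟩ := support_sum_le hP hu hs
        refine ⟨(s, u), ?_, a, b, ?_⟩
        · rw [Finset.mem_product]
          refine ⟨mem_Mon.mpr ⟨fun w hw => mem_Wd.mpr ((hP u hu).2.2 w (e1 hw)), e2⟩,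
            mem_Wd.mpr (hP u hu).1⟩
        · rw [Matrix.smul_mul, one_mul, Matrix.smul_apply, smul_eq_mul]
      · rw [add_mul, add_mul]
        have : ∑ j ∈ Finset.range (D + 1), (Finset.finsuppAntidiag (Wd m D) j).card ≤
            (∑ j ∈ Finset.range (D + 1), (Finset.finsuppAntidiag (Wd m D) j).card) * rk n :=
          Nat.le_mul_of_pos_right _ hr
        omega
    · intro t ht S' L' hsub h'
      obtain ⟨ht1, ht2⟩ := Finset.mem_product.mp ht
      obtain ⟨e1, e2⟩ := mem_Mon.mp ht1
      refine slp_matmul h' _ _ (fun a b => ?_) fun a b => ?_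
      · rw [Matrix.smul_apply, Matrix.one_apply]
        split_ifs
        · rw [smul_eq_mul, mul_one]
          exact mem_sp (hsub (Or.inr ⟨t.1, e1, e2, rfl⟩))
        · rw [smul_zero]
          exact Submodule.zero_mem _
      · exact mem_sp (hsub (Or.inl ⟨t.2, a, b, mem_Wd.mp ht2, rfl⟩))
  · intro w hw
    rw [hτ]
    exact Submodule.sum_mem _ fun a _ => mem_sp ⟨w, a, a, mem_Wd.mp hw, rfl⟩

/-- **Programs for simple trace polynomials.** -/
theorem upper_simple (m D : ℕ) : ∃ c : ℕ, ∀ (n : ℕ) (P : TracePoly m), P.Bounded D → P.Simple →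
    SLPComputes (xv (m := m * (n * n))) (c * n ^ 2) (outputs n P) := by
  classical
  refine ⟨Fintype.card ((Fin m × Bool) × (Fin m × Bool)) +
    ∑ j ∈ Finset.range (D + 1), (Finset.finsuppAntidiag (Wd m 2) j).card +
    (Mon (Wd m 2) D ×ˢ (Finset.univ : Finset (Fin m × Bool))).card, fun n P hP hS => ?_⟩
  rcases Nat.eq_zero_or_pos n with hn | hn
  · subst hn
    refine slp_mono (slp_span slp_zero ?_) (Nat.zero_le _)
    rintro z ⟨a, -, -⟩
    exact a.elim0
  have hr : 1 ≤ n ^ 2 := Nat.one_le_pow _ _ hn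
  set τ : Word m → RF (m * (n * n)) := fun w => (wordVal (genR m n) w).trace with hτ
  have h0 := slp_tasks (Finset.univ : Finset (((Fin m × Bool) × (Fin m × Bool)) × (Fin n × Fin n)))
    (fun t => {letter (genR m n) t.1.1 t.2.1 t.2.2 * letter (genR m n) t.1.2 t.2.2 t.2.1}) 1
    (slp_zero (M := m * (n * n)))
    (fun t _ S' L' _ h' => slp_step h' (letter_mem _ _ _ _) (letter_mem _ _ _ _))
  have h1 := slp_monomials (Wd m 2) τ D h0 ?_
  · have h2 := slp_tasks ((Mon (Wd m 2) D ×ˢ (Finset.univ : Finset (Fin m × Bool))) ×ˢ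
        (Finset.univ : Finset (Fin n × Fin n)))
      (fun t => {(t.1.1.prod fun w k => τ w ^ k) * letter (genR m n) t.1.2 t.2.1 t.2.2})
      1 h1 ?_
    · refine slp_mono (slp_span h2 ?_) ?_
      · rintro z ⟨a, b, rfl⟩
        rw [← value_genR, value_apply]
        refine Submodule.sum_mem _ fun u hu => ?_
        rw [aeval_eq_sum, Finset.sum_mul]
        refine Submodule.sum_mem _ fun s hs => ?_
        rw [smul_mul_assoc]
        obtain ⟨e1, e2⟩ := support_sum_le hP hu hs
        have e3 : s.support ⊆ Wd m 2 := fun w hw => mem_Wd.mpr ((hS u hu).2 w (e1 hw))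
        refine Submodule.smul_mem _ _ ?_
        rcases u with _ | ⟨l, u⟩
        · rw [wordVal, wv_nil, Matrix.one_apply]
          split_ifs
          · rw [mul_one]
            exact mem_sp (Or.inl (Or.inr ⟨s, e3, e2, rfl⟩))
          · rw [mul_zero]
            exact Submodule.zero_mem _
        · have hu1 := (hS _ hu).1
          have : u = [] := List.length_eq_zero_iff.mp (by simpa using hu1)
          subst this
          rw [wordVal, wv_cons, wv_nil, mul_one]
          refine mem_sp (Or.inr ?_)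
          simp only [Set.mem_iUnion]
          refine ⟨((s, l), (a, b)), ?_, rfl⟩
          rw [Finset.mem_product, Finset.mem_product]
          exact ⟨⟨mem_Mon.mpr ⟨e3, e2⟩, Finset.mem_univ _⟩, Finset.mem_univ _⟩
      · have c1 : (Finset.univ : Finset (((Fin m × Bool) × (Fin m × Bool)) ×
            (Fin n × Fin n))).card = Fintype.card ((Fin m × Bool) × (Fin m × Bool)) * n ^ 2 := by
          rw [Finset.card_univ, Fintype.card_prod, Fintype.card_prod (Fin n), Fintype.card_fin,
            pow_two]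
        have c2 : ((Mon (Wd m 2) D ×ˢ (Finset.univ : Finset (Fin m × Bool))) ×ˢ
            (Finset.univ : Finset (Fin n × Fin n))).card =
            (Mon (Wd m 2) D ×ˢ (Finset.univ : Finset (Fin m × Bool))).card * n ^ 2 := by
          rw [Finset.card_product (Mon (Wd m 2) D ×ˢ (Finset.univ : Finset (Fin m × Bool))),
            Finset.card_univ, Fintype.card_prod, Fintype.card_fin, pow_two]
        rw [c1, c2, add_mul, add_mul]
        have : ∑ j ∈ Finset.range (D + 1), (Finset.finsuppAntidiag (Wd m 2) j).card ≤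
            (∑ j ∈ Finset.range (D + 1), (Finset.finsuppAntidiag (Wd m 2) j).card) * n ^ 2 :=
          Nat.le_mul_of_pos_right _ hr
        omega
    · intro t ht S' L' hsub h'
      obtain ⟨ht1, -⟩ := Finset.mem_product.mp ht
      obtain ⟨ht2, -⟩ := Finset.mem_product.mp ht1
      obtain ⟨e1, e2⟩ := mem_Mon.mp ht2
      exact slp_step h' (mem_sp (hsub (Or.inr ⟨t.1.1, e1, e2, rfl⟩))) (letter_mem _ _ _ _)
  · intro w hw
    have hw2 := mem_Wd.mp hw
    rw [hτ]
    beta_reduce
    rcases w with _ | ⟨l, w⟩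
    · rw [wordVal, wv_nil]
      exact Submodule.sum_mem _ fun a _ => one_entry_mem a a _
    · rcases w with _ | ⟨l', w⟩
      · rw [wordVal, wv_cons, wv_nil, mul_one]
        exact Submodule.sum_mem _ fun a _ => letter_mem _ _ _ _
      · have : w = [] := List.length_eq_zero_iff.mp (by simpa using hw2)
        subst this
        rw [wordVal, wv_cons, wv_cons, wv_nil, mul_one, Matrix.trace]
        refine Submodule.sum_mem _ fun a _ => ?_
        rw [Matrix.diag_apply, Matrix.mul_apply]
        refine Submodule.sum_mem _ fun b _ => mem_sp (Or.inr ?_)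
        simp only [Set.mem_iUnion]
        exact ⟨((l, l'), (a, b)), Finset.mem_univ _, rfl⟩

end Pool.Agent.R803.MM
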