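import Pool.Agent.R803.MM.Point

/-!
# Outputs of a program for a trace polynomial at structured matrices
-/

namespace Pool.Agent.R803.MM

set_option linter.unusedSectionVars false
set_option linter.unusedSimpArgs false

open MvPolynomial Pool.Agent.H53R3 Pool.Agent.H515R2.MMR

variable {ι : Type} [Fintype ι] [DecidableEq ι] {m : ℕ}

lemma value_emb {n r : ℕ} (e : Fin n ≃ (ι ⊕ ι) ⊕ Fin r) (M : Fin m × Bool → Matrix ι ι R0)
    (P : TracePoly m) (s t : ι ⊕ ι) :
    P.value (emb e M) (e.symm (Sum.inl s)) (e.symm (Sum.inl t)) =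
      P.sum fun u G => aeval (tval n M) G * wordVal (hat M) u s t := by
  unfold TracePoly.value Finsupp.sum
  rw [Matrix.sum_apply]
  refine Finset.sum_congr rfl fun u _ => ?_
  beta_reduce
  rw [Matrix.smul_apply, smul_eq_mul, block_emb]
  have h : (fun w => (wordVal (emb e M) w).trace) = tval n M := by
    funext w
    exact trace_emb' e M w
  rw [h]

lemma conj_hat (M : Fin m × Bool → Matrix ι ι R0) (u : Word m) (x y : ι) :
    ∑ s, ∑ t, VV R0 (Sum.inl x) s * wordVal (hat M) u s t * WW R0 t (Sum.inl y) =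
      wv M u x y := by
  have h : VV R0 * wordVal (hat M) u * WW R0 =
      Matrix.fromBlocks (wv M u) 0 0 (wv M (star u)).transpose := by
    rw [wordVal_hat]
    calc VV R0 * (WW R0 * Matrix.fromBlocks (wv M u) 0 0 (wv M (star u)).transpose * VV R0) *
          WW R0 = (VV R0 * WW R0) * Matrix.fromBlocks (wv M u) 0 0 (wv M (star u)).transpose *
          (VV R0 * WW R0) := by simp only [mul_assoc]
      _ = _ := by rw [VV_mul_WW, one_mul, mul_one]
  have h2 := congrFun (congrFun h (Sum.inl x)) (Sum.inl y)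
  rw [Matrix.fromBlocks_apply₁₁] at h2
  rw [← h2, Matrix.mul_apply]
  simp only [Matrix.mul_apply, Finset.sum_mul]
  rw [Finset.sum_comm]

theorem master {q n r L : ℕ} (e : Fin n ≃ (ι ⊕ ι) ⊕ Fin r)
    (F : (Fin 3 → Matrix (Fin q) (Fin q) R0) → Fin m × Bool → Matrix ι ι R0)
    (hF : ∀ l, AffM fun X => F X l) (P : TracePoly m)
    (hL : SLPComputes (xv (m := m * (n * n))) L (outputs n P)) :
    ∃ (pt : (Fin 3 → Matrix (Fin q) (Fin q) R0) → Fin (m * (n * n)) → R0)
      (g : ι → ι → Pl (m * (n * n))),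
      (∀ t, IsAff fun X => pt X t) ∧
      SLPComputes (xv (m := m * (n * n))) L {z | ∃ x y, z = algebraMap _ (RF _) (g x y)} ∧
      ∀ X x y, aeval (pt X) (g x y) =
        P.sum fun u G => aeval (tval n (F X)) G * wv (F X) u x y := by
  classical
  refine ⟨fun X t => emb e (F X) (finProdFinEquiv.symm t).1
      (finProdFinEquiv.symm (finProdFinEquiv.symm t).2).1
      (finProdFinEquiv.symm (finProdFinEquiv.symm t).2).2,
    fun x y => ∑ s, ∑ t, C (VV ℂ (Sum.inl x) s) *
      P.value (gen m n) (e.symm (Sum.inl s)) (e.symm (Sum.inl t)) * C (WW ℂ t (Sum.inl y)),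
    fun t => ?_, ?_, ?_⟩
  · have h := (AffM.fromBlocks (AffM.hat hF (finProdFinEquiv.symm t).1)
      (AffM.zero (α := ι ⊕ ι) (β := Fin r)) (AffM.zero (α := Fin r) (β := ι ⊕ ι))
      (AffM.zero (α := Fin r) (β := Fin r))).submatrix e e
    exact h _ _
  · obtain ⟨G, hG, hf⟩ := hL
    refine ⟨G, hG, ?_⟩
    rintro z ⟨x, y, rfl⟩
    rw [map_sum]
    refine Submodule.sum_mem _ fun s _ => ?_
    rw [map_sum]
    refine Submodule.sum_mem _ fun t _ => ?_
    have h1 := hf _ ⟨e.symm (Sum.inl s), e.symm (Sum.inl t), rfl⟩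
    have h2 := Submodule.smul_mem _ (VV ℂ (Sum.inl x) s * WW ℂ t (Sum.inl y)) h1
    have hC : ∀ c : ℂ, algebraMap (Pl (m * (n * n))) (RF (m * (n * n))) (C c) =
        algebraMap ℂ (RF (m * (n * n))) c := fun c =>
      (IsScalarTower.algebraMap_apply ℂ (Pl (m * (n * n))) (RF (m * (n * n))) c).symm
    have h3 : algebraMap (Pl (m * (n * n))) (RF (m * (n * n))) (C (VV ℂ (Sum.inl x) s) *
        P.value (gen m n) (e.symm (Sum.inl s)) (e.symm (Sum.inl t)) *
        C (WW ℂ t (Sum.inl y))) = (VV ℂ (Sum.inl x) s * WW ℂ t (Sum.inl y)) •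
        algebraMap (Pl (m * (n * n))) (RF (m * (n * n)))
          (P.value (gen m n) (e.symm (Sum.inl s)) (e.symm (Sum.inl t))) := by
      rw [Algebra.smul_def, map_mul, map_mul, map_mul, hC, hC]
      ring
    rw [h3]
    exact h2
  · intro X x y
    set pt : Fin (m * (n * n)) → R0 := fun t => emb e (F X) (finProdFinEquiv.symm t).1
      (finProdFinEquiv.symm (finProdFinEquiv.symm t).2).1
      (finProdFinEquiv.symm (finProdFinEquiv.symm t).2).2 with hpt
    have hgen : (fun i => (gen m n i).map (aeval pt : Pl (m * (n * n)) →ₐ[ℂ] R0)) =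
        emb e (F X) := by
      funext i
      refine Matrix.ext fun a b => ?_
      rw [Matrix.map_apply, gen, Matrix.of_apply, aeval_X]
      simp only [hpt, Equiv.symm_apply_apply]
    have hval : ∀ a b, aeval pt (P.value (gen m n) a b) = P.value (emb e (F X)) a b := by
      intro a b
      rw [← hgen, value_map, Matrix.map_apply]
    rw [map_sum]
    have hV : ∀ a b, C (VV ℂ a b) = (VV R0 : Matrix (ι ⊕ ι) (ι ⊕ ι) R0) a b := by
      intro a b; rw [VV_map]; rfl
    have hW : ∀ a b, C (WW ℂ a b) = (WW R0 : Matrix (ι ⊕ ι) (ι ⊕ ι) R0) a b := by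
      intro a b; rw [WW_map]; rfl
    have hC : ∀ c : ℂ, aeval pt (C c : Pl (m * (n * n))) = (C c : R0) := by
      intro c; simp
    have h1 : ∀ s t, aeval pt (C (VV ℂ (Sum.inl x) s) *
        P.value (gen m n) (e.symm (Sum.inl s)) (e.symm (Sum.inl t)) * C (WW ℂ t (Sum.inl y))) =
        P.sum fun u G => aeval (tval n (F X)) G *
          (VV R0 (Sum.inl x) s * wordVal (hat (F X)) u s t * WW R0 t (Sum.inl y)) := by
      intro s t
      rw [map_mul, map_mul, hval, value_emb, hC, hC, hV, hW]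
      unfold Finsupp.sum
      rw [Finset.mul_sum, Finset.sum_mul]
      refine Finset.sum_congr rfl fun u _ => ?_
      ring
    have h2 : ∀ s, aeval pt (∑ t, C (VV ℂ (Sum.inl x) s) *
        P.value (gen m n) (e.symm (Sum.inl s)) (e.symm (Sum.inl t)) * C (WW ℂ t (Sum.inl y))) =
        ∑ t, P.sum fun u G => aeval (tval n (F X)) G *
          (VV R0 (Sum.inl x) s * wordVal (hat (F X)) u s t * WW R0 t (Sum.inl y)) := by
      intro s
      rw [map_sum]
      exact Finset.sum_congr rfl fun t _ => h1 s t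
    rw [Finset.sum_congr rfl fun s _ => h2 s]
    unfold Finsupp.sum
    rw [Finset.sum_congr rfl fun s _ => Finset.sum_comm, Finset.sum_comm]
    refine Finset.sum_congr rfl fun u _ => ?_
    beta_reduce
    rw [← conj_hat, Finset.mul_sum]
    refine Finset.sum_congr rfl fun s _ => ?_
    rw [Finset.mul_sum]

end Pool.Agent.R803.MM
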