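import Pool.Agent.R803.MM.Master

/-!
# Normal forms of trace polynomials
-/

namespace Pool.Agent.R803.MM

set_option linter.unusedSectionVars false
set_option linter.unusedSimpArgs false

open MvPolynomial

variable {m : ℕ}

/-- Words up to rotation and transposition. -/
def eqvSetoid (m : ℕ) : Setoid (Word m) := ⟨Eqv, Eqv.refl, Eqv.symm, Eqv.trans⟩

/-- A chosen representative. -/
noncomputable def can (w : Word m) : Word m := (Quotient.mk (eqvSetoid m) w).out

lemma can_eqv (w : Word m) : Eqv (can w) w :=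
  Quotient.exact (s := eqvSetoid m) (Quotient.out_eq (Quotient.mk (eqvSetoid m) w))

lemma can_eq {w w' : Word m} (h : Eqv w w') : can w = can w' := by
  unfold can
  rw [Quotient.sound (s := eqvSetoid m) h]

lemma can_can (w : Word m) : can (can w) = can w := can_eq (can_eqv w)

lemma can_length (w : Word m) : (can w).length = w.length := (can_eqv w).length

lemma can_ne_nil {w : Word m} (h : w ≠ []) : can w ≠ [] := by
  intro h0
  apply h
  rw [← List.length_eq_zero_iff, ← can_length, h0]
  rfl

section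

variable {R : Type*} [CommRing R] {ι : Type*} [Fintype ι] [DecidableEq ι]

lemma TT_star (M : Fin m × Bool → Matrix ι ι R) (w : Word m) : TT M (star w) = TT M w := by
  unfold TT
  rw [star_star, add_comm]

lemma TT_rot (M : Fin m × Bool → Matrix ι ι R) {w w' : Word m} (h : w ~r w') :
    TT M w = TT M w' := by
  unfold TT
  rw [trace_wv_rotate M h, trace_wv_rotate M (star_rotated h)]

lemma TT_eqv (M : Fin m × Bool → Matrix ι ι R) {w w' : Word m} (h : Eqv w w') :
    TT M w = TT M w' := by
  rcases h with h | h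
  · exact TT_rot M h
  · rw [← TT_star, TT_rot M h]

lemma trace_eqv (A : Fin m → Matrix ι ι R) {w w' : Word m} (h : Eqv w w') :
    (wordVal A w).trace = (wordVal A w').trace := by
  rcases h with h | h
  · exact trace_wv_rotate _ h
  · have h1 : (wordVal A (star w)).trace = (wordVal A w).trace := by
      rw [wordVal_star, Matrix.trace_transpose]
    rw [← h1]
    exact trace_wv_rotate _ h

end

/-- The substitution which brings the traces in normal form. -/
noncomputable def sub (n : ℕ) (w : Word m) : MvPolynomial (Word m) ℂ :=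
  if w = [] then C (n : ℂ) else X (can w)

/-- The normal form for `n × n` matrices. -/
noncomputable def NF (n : ℕ) (P : TracePoly m) : TracePoly m :=
  P.mapRange (bind₁ (sub n)) (map_zero _)

lemma NF_apply (n : ℕ) (P : TracePoly m) (u : Word m) : NF n P u = bind₁ (sub n) (P u) := rfl

lemma NF_formal {R : Type*} [CommRing R] [Algebra ℂ R] {ι : Type} [Fintype ι] [DecidableEq ι]
    (n : ℕ) (P : TracePoly m) (M : Fin m × Bool → Matrix ι ι R) (c : Word m → R) :
    ((NF n P).sum fun u G => aeval (TT M) G * c u) = P.sum fun u G => aeval (tval n M) G * c u := by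
  unfold NF
  rw [Finsupp.sum_mapRange_index (fun a => by simp)]
  refine Finsupp.sum_congr fun u _ => ?_
  rw [aeval_bind₁]
  congr 2
  congr 1
  funext w
  unfold sub tval
  split_ifs with h
  · simp
  · rw [aeval_X, TT_eqv M (can_eqv w)]

lemma NF_value {R : Type*} [CommRing R] [Algebra ℂ R] {ι : Type*} [Fintype ι] [DecidableEq ι]
    {n : ℕ} (hn : Fintype.card ι = n) (P : TracePoly m) (A : Fin m → Matrix ι ι R) :
    (NF n P).value A = P.value A := by
  unfold TracePoly.value NF
  rw [Finsupp.sum_mapRange_index (fun a => by simp)]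
  refine Finsupp.sum_congr fun u _ => ?_
  rw [aeval_bind₁]
  have h : (fun w => aeval (fun w => (wordVal A w).trace) (sub n w)) =
      fun w => (wordVal A w).trace := by
    funext w
    unfold sub
    split_ifs with h
    · subst h
      simp [wordVal, wv, Matrix.trace_one, hn]
    · rw [aeval_X, trace_eqv A (can_eqv w)]
  rw [h]

lemma mem_vars_NF {n : ℕ} {P : TracePoly m} {u w : Word m} (h : w ∈ (NF n P u).vars) :
    ∃ w' ∈ (P u).vars, w' ≠ [] ∧ w = can w' := by
  rw [NF_apply] at h
  obtain ⟨w', h1, h2⟩ := mem_vars_bind₁ _ _ h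
  refine ⟨w', h1, ?_⟩
  unfold sub at h2
  split_ifs at h2 with h3
  · rw [vars_C] at h2
    exact absurd h2 (Finset.notMem_empty _)
  · rw [vars_X] at h2
    exact ⟨h3, Finset.mem_singleton.mp h2⟩

lemma NF_support {n : ℕ} {P : TracePoly m} {u : Word m} (h : u ∈ (NF n P).support) :
    u ∈ P.support := by
  rw [Finsupp.mem_support_iff] at h ⊢
  intro h0
  apply h
  rw [NF_apply, h0, map_zero]

lemma totalDegree_bind₁_le {σ : Type*} (f : σ → MvPolynomial σ ℂ)
    (hf : ∀ i, (f i).totalDegree ≤ 1) (φ : MvPolynomial σ ℂ) :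
    (bind₁ f φ).totalDegree ≤ φ.totalDegree := by
  classical
  have h : bind₁ f φ = ∑ s ∈ φ.support, C (φ.coeff s) * ∏ i ∈ s.support, f i ^ s i := by
    conv_lhs => rw [φ.as_sum]
    rw [map_sum]
    refine Finset.sum_congr rfl fun s _ => ?_
    rw [monomial_eq, map_mul, bind₁_C_right, Finsupp.prod, map_prod]
    congr 1
    refine Finset.prod_congr rfl fun i _ => ?_
    rw [map_pow, bind₁_X_right]
  rw [h]
  refine (totalDegree_finsetSum _ _).trans (Finset.sup_le fun s hs => ?_)
  refine (totalDegree_mul _ _).trans ?_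
  rw [totalDegree_C, zero_add]
  refine (totalDegree_finsetProd _ _).trans ?_
  have h1 : ∑ i ∈ s.support, (f i ^ s i).totalDegree ≤ ∑ i ∈ s.support, s i := by
    refine Finset.sum_le_sum fun i _ => ?_
    refine (totalDegree_pow _ _).trans ?_
    have := hf i
    calc s i * (f i).totalDegree ≤ s i * 1 := Nat.mul_le_mul_left _ this
      _ = s i := mul_one _
  exact h1.trans (le_totalDegree hs)

lemma NF_bounded {n D : ℕ} {P : TracePoly m} (h : P.Bounded D) : (NF n P).Bounded D := by
  intro u hu
  obtain ⟨h1, h2, h3⟩ := h u (NF_support hu)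
  refine ⟨h1, ?_, fun w hw => ?_⟩
  · rw [NF_apply]
    refine (totalDegree_bind₁_le _ (fun i => ?_) _).trans h2
    unfold sub
    split_ifs
    · rw [totalDegree_C]; omega
    · rw [totalDegree_X]
  · obtain ⟨w', h4, -, rfl⟩ := mem_vars_NF hw
    rw [can_length]
    exact h3 w' h4

/-- The representatives of the nonempty words of length at most `D`. -/
noncomputable def Wset (m D : ℕ) : Finset (Word m) :=
  ((List.finite_length_le (Fin m × Bool) D).toFinset.filter (· ≠ [])).image can

lemma Wset_ne {D : ℕ} {w : Word m} (h : w ∈ Wset m D) : w ≠ [] := by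
  unfold Wset at h
  obtain ⟨w', h1, rfl⟩ := Finset.mem_image.mp h
  exact can_ne_nil (Finset.mem_filter.mp h1).2

lemma Wset_can {D : ℕ} {w : Word m} (h : w ∈ Wset m D) : can w = w := by
  unfold Wset at h
  obtain ⟨w', h1, rfl⟩ := Finset.mem_image.mp h
  exact can_can w'

lemma Wset_inj {D : ℕ} {w w' : Word m} (h : w ∈ Wset m D) (h' : w' ∈ Wset m D)
    (he : Eqv w w') : w = w' := by
  rw [← Wset_can h, ← Wset_can h', can_eq he]

lemma Wset_length {D : ℕ} {w : Word m} (h : w ∈ Wset m D) : w.length ≤ D := by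
  unfold Wset at h
  obtain ⟨w', h1, rfl⟩ := Finset.mem_image.mp h
  rw [can_length]
  have := (Finset.mem_filter.mp h1).1
  simpa using this

lemma vars_NF_Wset {n D : ℕ} {P : TracePoly m} (hP : P.Bounded D) {u w : Word m}
    (h : w ∈ (NF n P u).vars) : w ∈ Wset m D := by
  obtain ⟨w', h1, h2, rfl⟩ := mem_vars_NF h
  have hu : u ∈ P.support := by
    rw [Finsupp.mem_support_iff]
    intro h0
    rw [h0] at h1
    simp at h1
  unfold Wset
  refine Finset.mem_image.mpr ⟨w', Finset.mem_filter.mpr ⟨?_, h2⟩, rfl⟩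
  simpa using (hP u hu).2.2 w' h1

/-- First order expansion. -/
lemma taylor {σ : Type*} [DecidableEq σ] (H : MvPolynomial σ ℂ) (y : σ → ℂ) (w : σ) (c : ℂ)
    (T : R0) : ∃ r, aeval (fun w' => C (y w') + if w' = w then C c * T else 0) H =
      C (eval y H) + C (c * eval y (pderiv w H)) * T + T ^ 2 * r := by
  induction H using MvPolynomial.induction_on with
  | C a => exact ⟨0, by simp⟩
  | add p q hp hq =>
    obtain ⟨r, hr⟩ := hp
    obtain ⟨s, hs⟩ := hq
    refine ⟨r + s, ?_⟩
    rw [map_add, hr, hs]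
    simp only [map_add, map_mul]
    ring
  | mul_X p i hp =>
    obtain ⟨r, hr⟩ := hp
    by_cases h : i = w
    · subst h
      refine ⟨r * (C (y i) + C c * T) + C (c * eval y (pderiv i p)) * C c, ?_⟩
      rw [map_mul, hr, aeval_X, if_pos rfl, Derivation.leibniz, pderiv_X_self]
      simp only [map_add, map_mul, smul_eq_mul, mul_one, eval_X]
      ring
    · refine ⟨r * C (y i), ?_⟩
      rw [map_mul, hr, aeval_X, if_neg h, Derivation.leibniz, pderiv_X_of_ne h]
      simp only [map_add, map_mul, smul_eq_mul, mul_zero, zero_add, eval_X, add_zero]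
      ring

lemma pderiv_ne_zero {σ : Type*} {H : MvPolynomial σ ℂ} {w : σ} (h : w ∈ H.vars) :
    pderiv w H ≠ 0 := by
  classical
  obtain ⟨s, hs, hw⟩ := (mem_vars_iff_mem_support w).mp h
  intro h0
  have h1 := congrArg (coeff (s - Finsupp.single w 1)) h0
  rw [coeff_pderiv, coeff_zero] at h1
  have hsw : 1 ≤ s w := Nat.one_le_iff_ne_zero.mpr (Finsupp.mem_support_iff.mp hw)
  have h2 : s - Finsupp.single w 1 + Finsupp.single w 1 = s := by
    refine tsub_add_cancel_of_le ?_
    rw [Finsupp.single_le_iff]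
    exact hsw
  rw [h2] at h1
  have h3 : coeff s H ≠ 0 := mem_support_iff.mp hs
  rcases mul_eq_zero.mp h1 with h4 | h4
  · exact h3 h4
  · exact Nat.cast_add_one_ne_zero _ h4

lemma exists_eval_ne {σ : Type*} {H : MvPolynomial σ ℂ} (h : H ≠ 0) : ∃ y, eval y H ≠ 0 := by
  by_contra hcon
  push Not at hcon
  exact h (MvPolynomial.funext fun a => by rw [hcon a, map_zero])

lemma aeval_congr_vars {σ : Type*} {R : Type*} [CommRing R] [Algebra ℂ R] {H : MvPolynomial σ ℂ}
    {f g : σ → R} (h : ∀ w ∈ H.vars, f w = g w) : aeval f H = aeval g H :=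
  eval₂Hom_congr' rfl (fun i hi _ => h i hi) rfl

end Pool.Agent.R803.MM
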