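import Pool.Agent.R803.MM.Cyc

/-!
# Matrices with prescribed traces of words
-/

namespace Pool.Agent.R803.MM

set_option linter.unusedSectionVars false
set_option linter.unusedSimpArgs false

open Matrix

section

variable {m : ℕ}

/-- Words are equivalent if they agree up to rotation and transposition. -/
def Eqv (w w' : Word m) : Prop := w ~r w' ∨ star w ~r w'

lemma Eqv.refl (w : Word m) : Eqv w w := Or.inl (List.IsRotated.refl w)

lemma Eqv.symm {w w' : Word m} (h : Eqv w w') : Eqv w' w := by
  rcases h with h | h
  · exact Or.inl h.symm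
  · right
    have := star_rotated h
    rw [star_star] at this
    exact this.symm

lemma Eqv.trans {w w' w'' : Word m} (h : Eqv w w') (h' : Eqv w' w'') : Eqv w w'' := by
  rcases h with h | h <;> rcases h' with h' | h'
  · exact Or.inl (h.trans h')
  · exact Or.inr ((star_rotated h).trans h')
  · exact Or.inr (h.trans h')
  · left
    have := star_rotated h
    rw [star_star] at this
    exact this.trans h'

lemma Eqv.length {w w' : Word m} (h : Eqv w w') : w.length = w'.length := by
  rcases h with h | h
  · exact h.perm.length_eq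
  · simpa using h.perm.length_eq

variable {R : Type*} [CommRing R] {ι : Type*} [Fintype ι] [DecidableEq ι] {ι' : Type*}
  [Fintype ι'] [DecidableEq ι']

/-- The sum of the traces of a word and of its transpose, all letters being independent. -/
def TT (M : Fin m × Bool → Matrix ι ι R) (w : Word m) : R :=
  (wv M w).trace + (wv M (star w)).trace

/-- Direct sums. -/
def dsum {Λ : Type*} (M : Λ → Matrix ι ι R) (M' : Λ → Matrix ι' ι' R) (l : Λ) :
    Matrix (ι ⊕ ι') (ι ⊕ ι') R := fromBlocks (M l) 0 0 (M' l)

lemma wv_dsum {Λ : Type*} (M : Λ → Matrix ι ι R) (M' : Λ → Matrix ι' ι' R) (w : List Λ) :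
    wv (dsum M M') w = fromBlocks (wv M w) 0 0 (wv M' w) := by
  induction w with
  | nil => rw [wv_nil, wv_nil, wv_nil, fromBlocks_one]
  | cons l w ih =>
    rw [wv_cons, wv_cons, wv_cons, ih, dsum, fromBlocks_multiply]
    simp

lemma trace_fromBlocks' (A : Matrix ι ι R) (B : Matrix ι ι' R) (C : Matrix ι' ι R)
    (D : Matrix ι' ι' R) : (fromBlocks A B C D).trace = A.trace + D.trace := by
  simp [Matrix.trace, Fintype.sum_sum_type]

lemma TT_dsum (M : Fin m × Bool → Matrix ι ι R) (M' : Fin m × Bool → Matrix ι' ι' R)
    (w : Word m) : TT (dsum M M') w = TT M w + TT M' w := by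
  unfold TT
  rw [wv_dsum, wv_dsum, trace_fromBlocks', trace_fromBlocks']
  ring

lemma TT_map {S : Type*} [CommRing S] (f : R →+* S) (M : Fin m × Bool → Matrix ι ι R)
    (w : Word m) : TT (fun l => (M l).map f) w = f (TT M w) := by
  unfold TT
  rw [wv_map, wv_map, map_add]
  simp [Matrix.trace]

variable {κ : Type*} [Fintype κ] [DecidableEq κ]

lemma TT_cyc_short {u w : Word m} (X : Fin u.length → Matrix κ κ R) (hw : w ≠ [])
    (h : w.length < u.length) : TT (cycM u X) w = 0 := by
  unfold TT
  have hs : star w ≠ [] := by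
    intro h0
    have := congrArg List.length h0
    rw [star_length, List.length_nil, List.length_eq_zero_iff] at this
    exact hw this
  rw [trace_cyc_short X hw h, trace_cyc_short X hs (by rw [star_length]; exact h), add_zero]

lemma TT_cyc_eq {u w : Word m} (X : Fin u.length → Matrix κ κ R) (h0 : 0 < u.length)
    (h : w.length = u.length) :
    TT (cycM u X) w =
      (cnt u w + cnt u (star w) : ℕ) * (prodX (nx u.length) X u.length ⟨0, h0⟩).trace := by
  unfold TT
  rw [trace_cyc_eq X h0 h, trace_cyc_eq X h0 (by rw [star_length]; exact h)]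
  push_cast
  ring

lemma cnt_ne {u w : Word m} (h : w.length = u.length) (hne : ¬ Eqv w u) :
    cnt u w + cnt u (star w) = 0 := by
  have h1 : cnt u w = 0 := by
    by_contra hc
    exact hne (Or.inl (rotated_of_cnt h hc).symm)
  have h2 : cnt u (star w) = 0 := by
    by_contra hc
    exact hne (Or.inr (rotated_of_cnt (by rw [star_length]; exact h) hc).symm)
  rw [h1, h2]

lemma TT_chain {u w : Word m} {e : ℕ} (he : 2 ≤ e) (hu : u.length = e + 1)
    (X Y : Matrix κ κ R) (hw : w ≠ []) : TT (cycM u (XC X Y)) w = 0 := by
  unfold TT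
  have hs : star w ≠ [] := by
    intro h0
    have := congrArg List.length h0
    rw [star_length, List.length_nil, List.length_eq_zero_iff] at this
    exact hw this
  rw [trace_chain he hu X Y hw, trace_chain he hu X Y hs, add_zero]

/-- **Prescribed traces.** For finitely many nonempty pairwise inequivalent words, all values of
the traces occur at matrices of a fixed size. -/
theorem realize (W : Finset (Word m)) (h1 : ∀ w ∈ W, w ≠ [])
    (h2 : ∀ w ∈ W, ∀ w' ∈ W, Eqv w w' → w = w') :
    ∃ (k : Type) (_ : Fintype k) (_ : DecidableEq k), ∀ y : Word m → ℂ,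
      ∃ M : Fin m × Bool → Matrix k k ℂ, ∀ w ∈ W, TT M w = y w := by
  induction W using Finset.induction_on_max_value (fun w : Word m => w.length) with
  | empty =>
    exact ⟨Empty, inferInstance, inferInstance, fun y => ⟨fun _ => 0, by simp⟩⟩
  | insert u W hu hmax ih =>
    obtain ⟨k, i1, i2, hk⟩ := ih (fun w hw => h1 w (Finset.mem_insert_of_mem hw))
      (fun w hw w' hw' => h2 w (Finset.mem_insert_of_mem hw) w' (Finset.mem_insert_of_mem hw'))
    have hu0 : u ≠ [] := h1 u (Finset.mem_insert_self _ _)
    have hup : 0 < u.length := List.length_pos_iff.mpr hu0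
    refine ⟨k ⊕ (Fin u.length × Unit), inferInstance, inferInstance, fun y => ?_⟩
    obtain ⟨M, hM⟩ := hk y
    set c : ℕ := cnt u u + cnt u (star u) with hc
    have hc0 : (c : ℂ) ≠ 0 := by
      have := cnt_self_pos hu0
      exact_mod_cast (by omega : c ≠ 0)
    set s : ℂ := (y u - TT M u) / c with hs
    refine ⟨dsum M (cycM u (X1 (s • (1 : Matrix Unit Unit ℂ)))), ?_⟩
    have htr : (prodX (nx u.length) (X1 (s • (1 : Matrix Unit Unit ℂ))) u.length
        ⟨0, hup⟩).trace = s := by
      rw [prodX_X1 hup]
      simp [Matrix.trace]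
    intro w hw
    rw [TT_dsum]
    rcases Finset.mem_insert.mp hw with rfl | hw'
    · rw [TT_cyc_eq _ hup rfl, htr, ← hc, hs]
      field_simp
      ring
    · have hwu : w ≠ u := fun h => hu (h ▸ hw')
      have hle := hmax w hw'
      rw [hM w hw']
      rcases lt_or_eq_of_le hle with hlt | heq
      · rw [TT_cyc_short _ (h1 w hw) hlt, add_zero]
      · rw [TT_cyc_eq _ hup heq, cnt_ne heq, Nat.cast_zero, zero_mul, add_zero]
        exact fun h => hwu (h2 w hw u (Finset.mem_insert_self _ _) h)

end

end Pool.Agent.R803.MM
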