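import Pool.Agent.R803.MM.Defs
import Pool.Agent.R803.MM.Real
import Pool.Agent.R803.MM.Bound2

/-!
# Evaluation of programs at structured families of matrices
-/

namespace Pool.Agent.R803.MM

set_option linter.unusedSectionVars false
set_option linter.unusedSimpArgs false

open MvPolynomial Pool.Agent.H53R3 Pool.Agent.H515R2.MMR

/-- Families of matrices with affine entries. -/
def AffM {q : ℕ} {α β : Type*} (F : (Fin 3 → Matrix (Fin q) (Fin q) R0) → Matrix α β R0) : Prop :=
  ∀ a b, IsAff fun X => F X a b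

namespace AffM

variable {q : ℕ} {α β γ δ : Type*}

lemma zero : AffM (q := q) fun _ => (0 : Matrix α β R0) := fun _ _ => by
  simpa using IsAff.zero

lemma const (M : Matrix α β ℂ) : AffM (q := q) fun _ => M.map C := fun a b => by
  simpa using IsAff.const (M a b)

lemma transpose {F : (Fin 3 → Matrix (Fin q) (Fin q) R0) → Matrix α β R0} (h : AffM F) :
    AffM fun X => (F X).transpose := fun a b => h b a

lemma submatrix {F : (Fin 3 → Matrix (Fin q) (Fin q) R0) → Matrix α β R0} (h : AffM F)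
    (e : γ → α) (f : δ → β) : AffM fun X => (F X).submatrix e f := fun a b => h (e a) (f b)

lemma fromBlocks {F : (Fin 3 → Matrix (Fin q) (Fin q) R0) → Matrix α β R0}
    {G : (Fin 3 → Matrix (Fin q) (Fin q) R0) → Matrix α δ R0}
    {H : (Fin 3 → Matrix (Fin q) (Fin q) R0) → Matrix γ β R0}
    {K : (Fin 3 → Matrix (Fin q) (Fin q) R0) → Matrix γ δ R0}
    (hF : AffM F) (hG : AffM G) (hH : AffM H) (hK : AffM K) :
    AffM fun X => Matrix.fromBlocks (F X) (G X) (H X) (K X) := by
  intro a b
  rcases a with a | a <;> rcases b with b | b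
  · exact hF a b
  · exact hG a b
  · exact hH a b
  · exact hK a b

lemma mul_left [Fintype α] (M : Matrix γ α ℂ)
    {F : (Fin 3 → Matrix (Fin q) (Fin q) R0) → Matrix α β R0} (h : AffM F) :
    AffM fun X => (M.map C : Matrix γ α R0) * F X := by
  intro a b
  refine (congrArg IsAff (funext fun X => ?_)).mp
    (IsAff.sum Finset.univ (fun x X => C (M a x) * F X x b) fun x _ => (h x b).const_mul (M a x))
  simp [Matrix.mul_apply]

lemma mul_right [Fintype β] (M : Matrix β γ ℂ)
    {F : (Fin 3 → Matrix (Fin q) (Fin q) R0) → Matrix α β R0} (h : AffM F) :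
    AffM fun X => F X * (M.map C : Matrix β γ R0) := by
  intro a b
  refine (congrArg IsAff (funext fun X => ?_)).mp
    (IsAff.sum Finset.univ (fun x X => F X a x * C (M x b)) fun x _ => (h a x).mul_const (M x b))
  simp [Matrix.mul_apply]

lemma coord (e : Fin 3) : AffM (q := q) fun X => X e := fun i j => IsAff.coord e i j

lemma one [DecidableEq α] : AffM (q := q) fun _ => (1 : Matrix α α R0) := by
  have := const (q := q) (1 : Matrix α α ℂ)
  refine (congrArg AffM (funext fun X => ?_)).mp this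
  exact Matrix.map_one _ (map_zero _) (map_one _)

lemma cyc {Λ : Type*} [DecidableEq Λ] (u : List Λ)
    (Xf : (Fin 3 → Matrix (Fin q) (Fin q) R0) → Fin u.length → Matrix (Fin q) (Fin q) R0)
    (h : ∀ p, AffM fun X => Xf X p) (l : Λ) : AffM fun X => cycM u (Xf X) l := by
  intro a b
  by_cases hc : b.1 = nx u.length a.1 ∧ u[a.1] = l
  · refine (congrArg IsAff (funext fun X => ?_)).mp (h a.1 a.2 b.2)
    simp only [cycM, pat, hc, and_self, if_true]
  · refine (congrArg IsAff (funext fun X => ?_)).mp IsAff.zero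
    simp only [cycM, pat, hc, if_false]

lemma dsum {Λ : Type*} {F : (Fin 3 → Matrix (Fin q) (Fin q) R0) → Λ → Matrix α α R0}
    {G : (Fin 3 → Matrix (Fin q) (Fin q) R0) → Λ → Matrix β β R0}
    (hF : ∀ l, AffM fun X => F X l) (hG : ∀ l, AffM fun X => G X l) (l : Λ) :
    AffM fun X => MM.dsum (F X) (G X) l :=
  fromBlocks (hF l) zero zero (hG l)

end AffM

section

variable {ι : Type} [Fintype ι] [DecidableEq ι] {m : ℕ}

lemma VV_map : (VV R0 : Matrix (ι ⊕ ι) (ι ⊕ ι) R0) = (VV ℂ).map C := by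
  unfold VV
  rw [Matrix.fromBlocks_map]
  have h : ∀ c : ℂ, (algebraMap ℂ R0 c • (1 : Matrix ι ι R0)) =
      (algebraMap ℂ ℂ c • (1 : Matrix ι ι ℂ)).map C := by
    intro c
    ext a b : 2
    by_cases hab : a = b
    · subst hab; simp
    · simp [hab]
  rw [h, h, h]
  congr 1
  exact (Matrix.map_one _ (map_zero _) (map_one _)).symm

lemma JJ_map : (JJ R0 : Matrix (ι ⊕ ι) (ι ⊕ ι) R0) = (JJ ℂ).map C := by
  unfold JJ
  rw [Matrix.fromBlocks_map]
  have h1 : (1 : Matrix ι ι ℂ).map (C : ℂ → R0) = 1 :=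
    Matrix.map_one _ (map_zero _) (map_one _)
  have h0 : (0 : Matrix ι ι ℂ).map (C : ℂ → R0) = 0 := Matrix.map_zero _ (map_zero _)
  rw [h1, h0]

lemma WW_map : (WW R0 : Matrix (ι ⊕ ι) (ι ⊕ ι) R0) = (WW ℂ).map C := by
  unfold WW
  rw [Matrix.map_mul, ← JJ_map, VV_map]
  rfl

lemma AffM.hat {q : ℕ} {F : (Fin 3 → Matrix (Fin q) (Fin q) R0) → Fin m × Bool → Matrix ι ι R0}
    (hF : ∀ l, AffM fun X => F X l) (i : Fin m) : AffM fun X => MM.hat (F X) i := by
  unfold MM.hat
  rw [VV_map, WW_map]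
  exact (AffM.fromBlocks (hF _) AffM.zero AffM.zero (hF _).transpose).mul_left _ |>.mul_right _

/-- Embedding of the structured matrices in `n × n` matrices. -/
noncomputable def emb {n r : ℕ} (e : Fin n ≃ (ι ⊕ ι) ⊕ Fin r) (M : Fin m × Bool → Matrix ι ι R0)
    (i : Fin m) : Matrix (Fin n) (Fin n) R0 :=
  (Matrix.fromBlocks (hat M i) 0 0 (0 : Matrix (Fin r) (Fin r) R0)).submatrix e e

lemma wordVal_pad {r : ℕ} {κ : Type*} [Fintype κ] [DecidableEq κ] {R : Type*} [CommRing R]
    (A : Fin m → Matrix κ κ R) (w : Word m) (hw : w ≠ []) :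
    wordVal (fun i => Matrix.fromBlocks (A i) 0 0 (0 : Matrix (Fin r) (Fin r) R)) w =
      Matrix.fromBlocks (wordVal A w) 0 0 0 := by
  unfold wordVal
  have hl : ∀ l, letter (fun i => Matrix.fromBlocks (A i) 0 0 (0 : Matrix (Fin r) (Fin r) R)) l =
      Matrix.fromBlocks (letter A l) 0 0 0 := by
    rintro ⟨i, b⟩
    cases b <;> simp [letter, Matrix.fromBlocks_transpose]
  induction w with
  | nil => exact absurd rfl hw
  | cons l w ih =>
    rw [wv_cons, wv_cons, hl]
    by_cases h : w = []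
    · subst h
      rw [wv_nil, wv_nil, mul_one, mul_one]
    · rw [ih h, Matrix.fromBlocks_multiply]
      simp

lemma trace_emb {n r : ℕ} (e : Fin n ≃ (ι ⊕ ι) ⊕ Fin r) (M : Fin m × Bool → Matrix ι ι R0)
    (w : Word m) (hw : w ≠ []) : (wordVal (emb e M) w).trace = TT M w := by
  have h1 : wordVal (emb e M) w = (Matrix.fromBlocks (wordVal (hat M) w) 0 0
      (0 : Matrix (Fin r) (Fin r) R0)).submatrix e e := by
    rw [← wordVal_pad _ w hw, ← wordVal_submatrix]
    rfl
  have h2 : ∀ N : Matrix ((ι ⊕ ι) ⊕ Fin r) ((ι ⊕ ι) ⊕ Fin r) R0,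
      (N.submatrix e e).trace = N.trace := by
    intro N
    simp only [Matrix.trace, Matrix.diag_apply, Matrix.submatrix_apply]
    exact Equiv.sum_comp e fun x => N x x
  rw [h1, h2, trace_fromBlocks', trace_wordVal_hat, Matrix.trace_zero, add_zero, TT]

/-- The values of the variables: `n` for the empty word. -/
noncomputable def tval (n : ℕ) {R : Type*} [CommRing R] (M : Fin m × Bool → Matrix ι ι R)
    (w : Word m) : R := if w = [] then (n : R) else TT M w

lemma trace_emb' {n r : ℕ} (e : Fin n ≃ (ι ⊕ ι) ⊕ Fin r) (M : Fin m × Bool → Matrix ι ι R0)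
    (w : Word m) : (wordVal (emb e M) w).trace = tval n M w := by
  unfold tval
  split_ifs with h
  · subst h
    simp [wordVal, wv]
  · exact trace_emb e M w h

lemma block_emb {n r : ℕ} (e : Fin n ≃ (ι ⊕ ι) ⊕ Fin r) (M : Fin m × Bool → Matrix ι ι R0)
    (w : Word m) (s t : ι ⊕ ι) :
    wordVal (emb e M) w (e.symm (Sum.inl s)) (e.symm (Sum.inl t)) = wordVal (hat M) w s t := by
  have h1 : wordVal (emb e M) w = (wordVal (fun i => Matrix.fromBlocks (hat M i) 0 0
      (0 : Matrix (Fin r) (Fin r) R0)) w).submatrix e e := by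
    rw [← wordVal_submatrix]
    rfl
  rw [h1]
  by_cases h : w = []
  · subst h
    simp only [wordVal, wv_nil, Matrix.submatrix_apply, Equiv.apply_symm_apply, Matrix.one_apply,
      Sum.inl.injEq]
  · rw [wordVal_pad _ w h]
    simp

lemma value_map {R S : Type*} [CommRing R] [CommRing S] [Algebra ℂ R] [Algebra ℂ S]
    {κ : Type*} [Fintype κ] [DecidableEq κ] (f : R →ₐ[ℂ] S) (A : Fin m → Matrix κ κ R)
    (P : TracePoly m) : P.value (fun i => (A i).map f) = (P.value A).map f := by
  unfold TracePoly.value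
  have hw : ∀ w : Word m, wordVal (fun i => (A i).map f) w = (wordVal A w).map f :=
    fun w => wordVal_map f.toRingHom A w
  ext a b
  rw [Matrix.map_apply]
  unfold Finsupp.sum
  rw [Matrix.sum_apply, Matrix.sum_apply, map_sum]
  refine Finset.sum_congr rfl fun u _ => ?_
  beta_reduce
  rw [Matrix.smul_apply, Matrix.smul_apply, hw, smul_eq_mul, smul_eq_mul, map_mul,
    Matrix.map_apply]
  congr 1
  have h1 : (fun w => (wordVal (fun i => (A i).map f) w).trace) =
      fun w => f ((wordVal A w).trace) := by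
    funext w
    rw [hw]
    simp [Matrix.trace]
  rw [h1]
  exact (MvPolynomial.comp_aeval_apply _ _ _).symm

end

end Pool.Agent.R803.MM
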