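import Pool.Agent.R803.MM.Point

/-!
# Programs for trace polynomials
-/

namespace Pool.Agent.R803.MM

set_option linter.unusedSectionVars false
set_option linter.unusedSimpArgs false

open MvPolynomial Pool.Agent.H53R3 Pool.Agent.H515R2.MMR

section slp

variable {K : Type*} [Field K] [Algebra ℂ K] {M : ℕ}

/-- Affine combinations of inputs and of the elements of `S`. -/
def sp (x : Fin M → K) (S : Set K) : Submodule ℂ K :=
  Submodule.span ℂ ({1} ∪ Set.range x ∪ S)

variable {x : Fin M → K}

lemma sp_mono {S S' : Set K} (h : S ⊆ S') : sp x S ≤ sp x S' :=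
  Submodule.span_mono (Set.union_subset_union_right _ h)

lemma one_mem_sp (S : Set K) : (1 : K) ∈ sp x S :=
  Submodule.subset_span (Or.inl (Or.inl rfl))

lemma const_mem_sp (S : Set K) (c : ℂ) : algebraMap ℂ K c ∈ sp x S := by
  rw [Algebra.algebraMap_eq_smul_one]
  exact Submodule.smul_mem _ _ (one_mem_sp S)

lemma input_mem_sp (S : Set K) (t : Fin M) : x t ∈ sp x S :=
  Submodule.subset_span (Or.inl (Or.inr ⟨t, rfl⟩))

lemma mem_sp {S : Set K} {z : K} (h : z ∈ S) : z ∈ sp x S :=
  Submodule.subset_span (Or.inr h)

lemma sp_le_affS {S : Set K} {g : ℕ → K} {L : ℕ} (h : ∀ z ∈ S, z ∈ affS x g L) :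
    sp x S ≤ affS x g L := by
  refine Submodule.span_le.mpr ?_
  rintro z ((hz | hz) | hz)
  · exact Submodule.subset_span (Or.inl (Or.inl hz))
  · exact Submodule.subset_span (Or.inl (Or.inr hz))
  · exact h z hz

lemma slp_span {L : ℕ} {S S' : Set K} (h : SLPComputes x L S) (hS : ∀ z ∈ S', z ∈ sp x S) :
    SLPComputes x L S' := by
  obtain ⟨g, hg, hf⟩ := h
  exact ⟨g, hg, fun z hz => sp_le_affS hf (hS z hz)⟩

lemma affS_congr {g g' : ℕ → K} {l : ℕ} (h : ∀ k < l, g k = g' k) : affS x g l = affS x g' l := by
  unfold affS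
  have : g '' {k | k < l} = g' '' {k | k < l} := Set.image_congr fun k hk => h k hk
  rw [this]

lemma slp_step {L : ℕ} {S : Set K} (h : SLPComputes x L S) {u v : K} (hu : u ∈ sp x S)
    (hv : v ∈ sp x S) : SLPComputes x (L + 1) (S ∪ {u * v}) := by
  obtain ⟨g, hg, hf⟩ := h
  set g' : ℕ → K := Function.update g L (u * v) with hg'
  have hlt : ∀ k < L, g' k = g k := fun k hk => Function.update_of_ne (by omega) _ _
  have haff : ∀ l ≤ L, affS x g' l = affS x g l := fun l hl =>
    affS_congr fun k hk => hlt k (by omega)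
  refine ⟨g', fun l hl => ?_, fun z hz => ?_⟩
  · rcases Nat.lt_succ_iff_lt_or_eq.mp hl with hl' | rfl
    · rw [haff l hl'.le, hlt l hl']
      exact hg l hl'
    · rw [haff _ le_rfl]
      exact ⟨u, sp_le_affS hf hu, v, sp_le_affS hf hv, Or.inl (by simp [hg'])⟩
  · rcases hz with hz | hz
    · have h1 := hf z hz
      rw [← haff L le_rfl] at h1
      refine Submodule.span_mono ?_ h1
      refine Set.union_subset_union_right _ (Set.image_mono ?_)
      intro k hk
      exact Nat.lt_succ_of_lt hk
    · rw [Set.mem_singleton_iff.mp hz]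
      refine Submodule.subset_span (Or.inr ⟨L, Nat.lt_succ_self L, ?_⟩)
      simp [hg']

lemma slp_mono {L L' : ℕ} {S : Set K} (h : SLPComputes x L S) (hL : L ≤ L') :
    SLPComputes x L' S := by
  induction L', hL using Nat.le_induction with
  | base => exact h
  | succ n _ ih =>
    exact slp_span (slp_step ih (one_mem_sp S) (one_mem_sp S)) fun z hz => mem_sp (Or.inl hz)

/-- Many tasks of the same cost. -/
lemma slp_tasks {α : Type*} (T : Finset α) (E : α → Set K) (c : ℕ) {L : ℕ} {S : Set K}
    (h : SLPComputes x L S)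
    (hT : ∀ t ∈ T, ∀ S' : Set K, ∀ L' : ℕ, S ⊆ S' → SLPComputes x L' S' →
      SLPComputes x (L' + c) (S' ∪ E t)) :
    SLPComputes x (L + T.card * c) (S ∪ ⋃ t ∈ T, E t) := by
  classical
  induction T using Finset.induction_on with
  | empty => simpa using h
  | insert t T ht ih =>
    have h1 := ih fun t' ht' => hT t' (Finset.mem_insert_of_mem ht')
    have h2 := hT t (Finset.mem_insert_self _ _) _ _ Set.subset_union_left h1
    rw [Finset.card_insert_of_notMem ht, add_mul, one_mul, ← add_assoc]
    refine slp_span h2 ?_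
    rintro z (hz | hz)
    · exact mem_sp (Or.inl (Or.inl hz))
    · simp only [Finset.mem_insert, Set.iUnion_iUnion_eq_or_left] at hz
      rcases hz with hz | hz
      · exact mem_sp (Or.inr hz)
      · exact mem_sp (Or.inl (Or.inr hz))

/-- A product of two matrices. -/
lemma slp_matmul {n L : ℕ} {S : Set K} (h : SLPComputes x L S) (A B : Matrix (Fin n) (Fin n) K)
    (hA : ∀ i j, A i j ∈ sp x S) (hB : ∀ i j, B i j ∈ sp x S) :
    SLPComputes x (L + rk n) (S ∪ {z | ∃ i j, z = (A * B) i j}) := by
  classical
  obtain ⟨a, b, c, habc⟩ := hasRank_rk n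
  set α : Fin (rk n) → K := fun t => ∑ i, ∑ j, a t i j • A i j with hα
  set β : Fin (rk n) → K := fun t => ∑ i, ∑ j, b t i j • B i j with hβ
  have h1 := slp_tasks (x := x) (Finset.univ : Finset (Fin (rk n))) (fun t => {α t * β t}) 1 h
    (fun t _ S' L' hS' h' => slp_step h'
      (sp_mono hS' (Submodule.sum_mem _ fun i _ => Submodule.sum_mem _ fun j _ =>
        Submodule.smul_mem _ _ (hA i j)))
      (sp_mono hS' (Submodule.sum_mem _ fun i _ => Submodule.sum_mem _ fun j _ =>
        Submodule.smul_mem _ _ (hB i j))))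
  rw [Finset.card_univ, Fintype.card_fin, mul_one] at h1
  refine slp_span h1 ?_
  rintro z (hz | ⟨l, k, rfl⟩)
  · exact mem_sp (Or.inl hz)
  · have key : (A * B) l k = ∑ t, c t k l • (α t * β t) := by
      have e1 : ∀ t, c t k l • (α t * β t) = ∑ j', ∑ k', ∑ i, ∑ j,
          (a t i j * b t j' k' * c t k l) • (A i j * B j' k') := by
        intro t
        simp only [hα, hβ, Finset.sum_mul, Finset.mul_sum, Finset.smul_sum]
        refine Finset.sum_congr rfl fun j' _ => Finset.sum_congr rfl fun k' _ =>
          Finset.sum_congr rfl fun i _ => Finset.sum_congr rfl fun j _ => ?_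
        rw [smul_mul_smul_comm, smul_smul]
        congr 1
        ring
      rw [Finset.sum_congr rfl fun t _ => e1 t, Finset.sum_comm]
      have e2 : ∀ j', ∑ t, ∑ k', ∑ i, ∑ j, (a t i j * b t j' k' * c t k l) • (A i j * B j' k') =
          ∑ k', ∑ i, ∑ j, (if j = j' ∧ k' = k ∧ l = i then (1 : ℂ) else 0) •
            (A i j * B j' k') := by
        intro j'
        rw [Finset.sum_comm]
        refine Finset.sum_congr rfl fun k' _ => ?_
        rw [Finset.sum_comm]
        refine Finset.sum_congr rfl fun i _ => ?_
        rw [Finset.sum_comm]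
        refine Finset.sum_congr rfl fun j _ => ?_
        rw [habc i j j' k' k l, Finset.sum_smul]
      rw [Finset.sum_congr rfl fun j' _ => e2 j', Matrix.mul_apply]
      refine Finset.sum_congr rfl fun j' _ => ?_
      rw [Finset.sum_eq_single k]
      · rw [Finset.sum_eq_single l, Finset.sum_eq_single j']
        · simp
        · intro j _ hj; rw [if_neg (by tauto), zero_smul]
        · simp
        · intro i _ hi
          refine Finset.sum_eq_zero fun j _ => ?_
          rw [if_neg (by tauto), zero_smul]
        · simp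
      · intro k' _ hk'
        refine Finset.sum_eq_zero fun i _ => Finset.sum_eq_zero fun j _ => ?_
        rw [if_neg (by tauto), zero_smul]
      · simp
    rw [key]
    refine Submodule.sum_mem _ fun t _ => Submodule.smul_mem _ _ (mem_sp (Or.inr ?_))
    simp only [Set.mem_iUnion]
    exact ⟨t, Finset.mem_univ _, rfl⟩

/-- Monomials of bounded degree in finitely many available elements. -/
lemma slp_monomials {α : Type*} [DecidableEq α] (W : Finset α) (τ : α → K) (D : ℕ) {L : ℕ}
    {S : Set K} (h : SLPComputes x L S) (hτ : ∀ w ∈ W, τ w ∈ sp x S) :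
    SLPComputes x (L + ∑ j ∈ Finset.range (D + 1), (Finset.finsuppAntidiag W j).card)
      (S ∪ {z | ∃ s : α →₀ ℕ, s.support ⊆ W ∧ s.sum (fun _ k => k) ≤ D ∧
        z = s.prod fun w k => τ w ^ k}) := by
  induction D with
  | zero =>
    refine slp_mono (slp_span h ?_) (Nat.le_add_right _ _)
    rintro z (hz | ⟨s, -, hs, rfl⟩)
    · exact mem_sp hz
    · have : s = 0 := by
        ext w
        by_contra hw
        have h1 : s w ≤ s.sum fun _ k => k :=
          Finset.single_le_sum (f := fun w => s w) (fun _ _ => Nat.zero_le _)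
            (Finsupp.mem_support_iff.mpr hw)
        simp at hw
        omega
      subst this
      rw [Finsupp.prod_zero_index]
      exact one_mem_sp S
  | succ D ih =>
    set S' := S ∪ {z | ∃ s : α →₀ ℕ, s.support ⊆ W ∧ s.sum (fun _ k => k) ≤ D ∧
        z = s.prod fun w k => τ w ^ k} with hS'
    have h1 := slp_tasks (x := x) (Finset.finsuppAntidiag W (D + 1))
      (fun s => {s.prod fun w k => τ w ^ k}) 1 ih ?_
    · rw [Finset.sum_range_succ, ← add_assoc]
      rw [mul_one] at h1
      refine slp_span h1 ?_
      rintro z (hz | ⟨s, hs1, hs2, rfl⟩)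
      · exact mem_sp (Or.inl (Or.inl hz))
      · rcases Nat.le_succ_iff.mp hs2 with hs3 | hs3
        · exact mem_sp (Or.inl (Or.inr ⟨s, hs1, hs3, rfl⟩))
        · refine mem_sp (Or.inr ?_)
          simp only [Set.mem_iUnion]
          refine ⟨s, ?_, rfl⟩
          rw [Finset.mem_finsuppAntidiag]
          refine ⟨?_, hs1⟩
          have hs3' : s.sum (fun _ k => k) = D + 1 := hs3
          rw [← hs3', Finsupp.sum]
          exact (Finset.sum_subset hs1 fun w _ hw => by simpa using hw).symm
    · intro s hs S'' L' hsub h'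
      rw [Finset.mem_finsuppAntidiag] at hs
      obtain ⟨hs1, hs2⟩ := hs
      have hne : s ≠ 0 := by
        rintro rfl
        simp at hs1
      obtain ⟨w, hw⟩ := Finsupp.support_nonempty_iff.mpr hne
      have hsw : Finsupp.single w 1 ≤ s := by
        rw [Finsupp.single_le_iff]
        exact Nat.one_le_iff_ne_zero.mpr (Finsupp.mem_support_iff.mp hw)
      have hdec : s = (s - Finsupp.single w 1) + Finsupp.single w 1 :=
        (tsub_add_cancel_of_le hsw).symm
      have hprod : (s.prod fun w k => τ w ^ k) =
          ((s - Finsupp.single w 1).prod fun w k => τ w ^ k) * τ w := by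
        conv_lhs => rw [hdec]
        rw [Finsupp.prod_add_index' (by simp) (by intro a b c; exact pow_add _ _ _),
          Finsupp.prod_single_index (by simp), pow_one]
      rw [hprod]
      refine slp_step h' (sp_mono hsub (mem_sp (Or.inr ⟨s - Finsupp.single w 1, ?_, ?_, rfl⟩)))
        (sp_mono hsub (sp_mono Set.subset_union_left (hτ w (hs2 hw))))
      · intro v hv
        apply hs2
        rw [Finsupp.mem_support_iff] at hv ⊢
        intro h0
        apply hv
        simp [Finsupp.tsub_apply, h0]
      · have h3 : s.sum (fun _ k => k) = D + 1 := by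
          rw [Finsupp.sum, ← hs1]
          exact Finset.sum_subset hs2 fun w _ hw => by simpa using hw
        have h4 : s.sum (fun _ k => k) =
            (s - Finsupp.single w 1).sum (fun _ k => k) + 1 := by
          conv_lhs => rw [hdec]
          rw [Finsupp.sum_add_index' (by simp) (by simp), Finsupp.sum_single_index (by simp)]
        omega

end slp

end Pool.Agent.R803.MM
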