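import Mathlib

/-!
# Words in matrices and their transposes; cyclic patterns of block matrices
-/

namespace Pool.Agent.R803.MM

set_option linter.unusedSectionVars false
set_option linter.unusedSimpArgs false

open Matrix

/-- Words in the letters `X_i` (`(i, false)`) and `X_iᵀ` (`(i, true)`). -/
abbrev Word (m : ℕ) := List (Fin m × Bool)

section val

variable {R : Type*} [CommRing R] {ι : Type*} [Fintype ι] [DecidableEq ι] {m : ℕ}

/-- The value of a letter: `A_i` or its transpose. -/
def letter (A : Fin m → Matrix ι ι R) (l : Fin m × Bool) : Matrix ι ι R :=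
  if l.2 then (A l.1)ᵀ else A l.1

/-- The product of the matrices `M l` over the letters `l` of a word. -/
def wv {Λ : Type*} (M : Λ → Matrix ι ι R) (w : List Λ) : Matrix ι ι R := (w.map M).prod

/-- The value of a word at the matrices `A_1, …, A_m`. -/
def wordVal (A : Fin m → Matrix ι ι R) (w : Word m) : Matrix ι ι R := wv (letter A) w

lemma wv_nil {Λ : Type*} (M : Λ → Matrix ι ι R) : wv M [] = 1 := by simp [wv]

lemma wv_cons {Λ : Type*} (M : Λ → Matrix ι ι R) (l : Λ) (w : List Λ) :
    wv M (l :: w) = M l * wv M w := by simp [wv]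

lemma wv_append {Λ : Type*} (M : Λ → Matrix ι ι R) (w w' : List Λ) :
    wv M (w ++ w') = wv M w * wv M w' := by simp [wv]

lemma trace_wv_rotate {Λ : Type*} (M : Λ → Matrix ι ι R) {w w' : List Λ} (h : w ~r w') :
    (wv M w).trace = (wv M w').trace := by
  obtain ⟨n, rfl⟩ := h
  rw [← List.rotate_mod]
  have := List.take_append_drop (n % w.length) w
  conv_lhs => rw [← this]
  rcases Nat.eq_zero_or_pos w.length with h0 | h0
  · have : w = [] := List.length_eq_zero_iff.mp h0
    subst this
    simp
  · rw [List.rotate_eq_drop_append_take (Nat.mod_lt _ h0).le, wv_append, wv_append,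
      Matrix.trace_mul_comm]

/-- Exchange of `X_i` and `X_iᵀ`. -/
def flip (l : Fin m × Bool) : Fin m × Bool := (l.1, !l.2)

@[simp] lemma flip_flip (l : Fin m × Bool) : flip (flip l) = l := by simp [flip]

/-- The transpose of a word. -/
def star (w : Word m) : Word m := (w.map flip).reverse

@[simp] lemma star_length (w : Word m) : (star w).length = w.length := by simp [star]

@[simp] lemma star_star (w : Word m) : star (star w) = w := by
  unfold star
  rw [List.map_reverse, List.reverse_reverse, List.map_map]
  have : (flip ∘ flip : Fin m × Bool → Fin m × Bool) = id := by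
    funext l; simp
  rw [this, List.map_id]

lemma star_cons (l : Fin m × Bool) (w : Word m) : star (l :: w) = star w ++ [flip l] := by
  simp [star]

lemma star_rotated {w w' : Word m} (h : w ~r w') : star w ~r star w' :=
  (h.map flip).reverse

lemma letter_flip (A : Fin m → Matrix ι ι R) (l : Fin m × Bool) :
    letter A (flip l) = (letter A l)ᵀ := by
  obtain ⟨i, b⟩ := l
  cases b <;> simp [letter, flip]

lemma wordVal_star (A : Fin m → Matrix ι ι R) (w : Word m) :
    wordVal A (star w) = (wordVal A w)ᵀ := by
  unfold wordVal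
  induction w with
  | nil => simp [star, wv]
  | cons l w ih =>
    rw [star_cons, wv_append, ih, wv_cons (letter A) l w, Matrix.transpose_mul, wv_cons, wv_nil,
      mul_one, letter_flip]

lemma wv_map {Λ S : Type*} [CommRing S] (f : R →+* S) (M : Λ → Matrix ι ι R) (w : List Λ) :
    wv (fun l => (M l).map f) w = (wv M w).map f := by
  induction w with
  | nil => simp [wv]
  | cons l w ih => rw [wv_cons, wv_cons, Matrix.map_mul, ih]

lemma wordVal_map {S : Type*} [CommRing S] (f : R →+* S) (A : Fin m → Matrix ι ι R)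
    (w : Word m) : wordVal (fun i => (A i).map f) w = (wordVal A w).map f := by
  unfold wordVal
  rw [← wv_map]
  congr 1
  funext l
  unfold letter
  split_ifs <;> rfl

lemma wordVal_submatrix {ι' : Type*} [Fintype ι'] [DecidableEq ι'] (e : ι' ≃ ι)
    (A : Fin m → Matrix ι ι R) (w : Word m) :
    wordVal (fun i => (A i).submatrix e e) w = (wordVal A w).submatrix e e := by
  unfold wordVal
  induction w with
  | nil => simp [wv]
  | cons l w ih =>
    rw [wv_cons, wv_cons, ih, ← Matrix.submatrix_mul_equiv _ _ e e e]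
    congr 1
    unfold letter
    split_ifs <;> rfl

end val

/-! ### Making `X_iᵀ` independent of `X_i` -/

section split

variable {ι : Type*} [Fintype ι] [DecidableEq ι] {m : ℕ}

/-- Exchange of two blocks. -/
def JJ (R : Type*) [CommRing R] : Matrix (ι ⊕ ι) (ι ⊕ ι) R := fromBlocks 0 1 1 0

/-- A matrix `V` with `V Vᵀ = J`. -/
noncomputable def VV (R : Type*) [CommRing R] [Algebra ℂ R] : Matrix (ι ⊕ ι) (ι ⊕ ι) R :=
  fromBlocks 1 (algebraMap ℂ R Complex.I • 1) (algebraMap ℂ R (1 / 2) • 1)
    (algebraMap ℂ R (-(Complex.I / 2)) • 1)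

/-- The inverse of `V`. -/
noncomputable def WW (R : Type*) [CommRing R] [Algebra ℂ R] : Matrix (ι ⊕ ι) (ι ⊕ ι) R :=
  (VV R)ᵀ * JJ R

variable {R : Type*} [CommRing R] [Algebra ℂ R]

lemma JJ_mul_JJ : (JJ R : Matrix (ι ⊕ ι) (ι ⊕ ι) R) * JJ R = 1 := by
  simp [JJ, fromBlocks_multiply, ← fromBlocks_one]

lemma JJ_transpose : (JJ R : Matrix (ι ⊕ ι) (ι ⊕ ι) R)ᵀ = JJ R := by
  simp [JJ, fromBlocks_transpose]

lemma VV_mul_transpose : (VV R : Matrix (ι ⊕ ι) (ι ⊕ ι) R) * (VV R)ᵀ = JJ R := by
  unfold VV JJ
  rw [fromBlocks_transpose, fromBlocks_multiply]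
  simp only [transpose_one, transpose_smul, Matrix.mul_one, Matrix.one_mul, Matrix.smul_mul,
    Matrix.mul_smul, smul_smul, ← map_mul]
  have h1 : Complex.I * Complex.I = -1 := Complex.I_mul_I
  congr 1
  · rw [h1, map_neg, map_one, neg_smul, one_smul, add_neg_cancel]
  · rw [← add_smul, ← map_add]
    have : (1 / 2 + -(Complex.I / 2) * Complex.I : ℂ) = 1 := by
      linear_combination (-(1 : ℂ) / 2) * h1
    rw [this, map_one, one_smul]
  · rw [← add_smul, ← map_add]
    have : (1 / 2 + Complex.I * -(Complex.I / 2) : ℂ) = 1 := by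
      linear_combination (-(1 : ℂ) / 2) * h1
    rw [this, map_one, one_smul]
  · rw [← add_smul, ← map_add]
    have : (1 / 2 * (1 / 2) + -(Complex.I / 2) * -(Complex.I / 2) : ℂ) = 0 := by
      linear_combination ((1 : ℂ) / 4) * h1
    rw [this, map_zero, zero_smul]

lemma VV_mul_WW : (VV R : Matrix (ι ⊕ ι) (ι ⊕ ι) R) * WW R = 1 := by
  rw [WW, ← mul_assoc, VV_mul_transpose, JJ_mul_JJ]

lemma WW_mul_VV : (WW R : Matrix (ι ⊕ ι) (ι ⊕ ι) R) * VV R = 1 :=
  mul_eq_one_comm.mp VV_mul_WW

lemma WW_transpose : (WW R : Matrix (ι ⊕ ι) (ι ⊕ ι) R)ᵀ = JJ R * VV R := by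
  rw [WW, transpose_mul, transpose_transpose, JJ_transpose]

/-- The matrices `A_i` for which the letters `A_i`, `A_iᵀ` take independent values. -/
noncomputable def hat (M : Fin m × Bool → Matrix ι ι R) (i : Fin m) :
    Matrix (ι ⊕ ι) (ι ⊕ ι) R :=
  WW R * fromBlocks (M (i, false)) 0 0 (M (i, true))ᵀ * VV R

lemma letter_hat (M : Fin m × Bool → Matrix ι ι R) (l : Fin m × Bool) :
    letter (hat M) l = WW R * fromBlocks (M l) 0 0 (M (flip l))ᵀ * VV R := by
  obtain ⟨i, b⟩ := l
  cases b
  · simp [letter, hat, flip]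
  · simp only [letter, if_true, hat, flip, Bool.not_true]
    rw [transpose_mul, transpose_mul, WW_transpose, fromBlocks_transpose, transpose_transpose,
      transpose_zero]
    have : (VV R : Matrix (ι ⊕ ι) (ι ⊕ ι) R)ᵀ = WW R * JJ R := by
      rw [WW, mul_assoc, JJ_mul_JJ, mul_one]
    rw [this]
    have h2 : (JJ R : Matrix (ι ⊕ ι) (ι ⊕ ι) R) *
        fromBlocks (M (i, false))ᵀ 0 0 (M (i, true)) * JJ R =
        fromBlocks (M (i, true)) 0 0 (M (i, false))ᵀ := by
      simp [JJ, fromBlocks_multiply]
    calc WW R * JJ R * (fromBlocks (M (i, false))ᵀ 0 0 (M (i, true)) * (JJ R * VV R))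
        = WW R * (JJ R * fromBlocks (M (i, false))ᵀ 0 0 (M (i, true)) * JJ R) * VV R := by
          simp only [mul_assoc]
      _ = _ := by rw [h2]

theorem wordVal_hat (M : Fin m × Bool → Matrix ι ι R) (w : Word m) :
    wordVal (hat M) w = WW R * fromBlocks (wv M w) 0 0 (wv M (star w))ᵀ * VV R := by
  unfold wordVal
  induction w with
  | nil =>
    rw [wv_nil, wv_nil]
    have : wv M (star ([] : Word m)) = 1 := by simp [star, wv]
    rw [this, transpose_one, fromBlocks_one, mul_one, WW_mul_VV]
  | cons l w ih =>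
    rw [wv_cons, ih, letter_hat, wv_cons, star_cons, wv_append, wv_cons, wv_nil, mul_one,
      transpose_mul]
    calc WW R * fromBlocks (M l) 0 0 (M (flip l))ᵀ * VV R *
          (WW R * fromBlocks (wv M w) 0 0 (wv M (star w))ᵀ * VV R)
        = WW R * (fromBlocks (M l) 0 0 (M (flip l))ᵀ * (VV R * WW R) *
          fromBlocks (wv M w) 0 0 (wv M (star w))ᵀ) * VV R := by
          simp only [mul_assoc]
      _ = _ := by
        rw [VV_mul_WW, mul_one, fromBlocks_multiply]
        simp

theorem trace_wordVal_hat (M : Fin m × Bool → Matrix ι ι R) (w : Word m) :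
    (wordVal (hat M) w).trace = (wv M w).trace + (wv M (star w)).trace := by
  rw [wordVal_hat, Matrix.trace_mul_comm, ← mul_assoc, VV_mul_WW, one_mul]
  simp [Matrix.trace, Fintype.sum_sum_type]

end split

/-! ### Cyclic patterns -/

section pattern

variable {R : Type*} [CommRing R] {P : Type*} [Fintype P] [DecidableEq P] {κ : Type*} [Fintype κ]
  [DecidableEq κ] {Λ : Type*} [DecidableEq Λ]

/-- Block matrices: the block of the letter `l` in position `(p, next p)` is `X p` if `lab p = l`;
all other blocks are zero. -/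
def pat (next : P → P) (lab : P → Λ) (X : P → Matrix κ κ R) (l : Λ) :
    Matrix (P × κ) (P × κ) R :=
  fun x y => if y.1 = next x.1 ∧ lab x.1 = l then X x.1 x.2 y.2 else 0

/-- The product `X p * X (next p) * …` with `k` factors. -/
def prodX (next : P → P) (X : P → Matrix κ κ R) : ℕ → P → Matrix κ κ R
  | 0, _ => 1
  | k + 1, p => X p * prodX next X k (next p)

/-- The word `w` can be read along the pattern, starting at `p`. -/
def Lab (next : P → P) (lab : P → Λ) : List Λ → P → Prop
  | [], _ => True
  | l :: w, p => lab p = l ∧ Lab next lab w (next p)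

instance decLab (next : P → P) (lab : P → Λ) : (w : List Λ) → (p : P) → Decidable (Lab next lab w p)
  | [], _ => inferInstanceAs (Decidable True)
  | l :: w, p => by
    have := decLab next lab w (next p)
    exact inferInstanceAs (Decidable (lab p = l ∧ Lab next lab w (next p)))

variable (next : P → P) (lab : P → Λ) (X : P → Matrix κ κ R)

lemma wv_pat (w : List Λ) : ∀ (p : P) (a : κ) (p' : P) (b : κ),
    wv (pat next lab X) w (p, a) (p', b) =
      if p' = next^[w.length] p ∧ Lab next lab w p then prodX next X w.length p a b else 0 := by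
  induction w with
  | nil =>
    intro p a p' b
    simp only [wv_nil, List.length_nil, Function.iterate_zero, id, Lab, and_true, prodX,
      Matrix.one_apply, Prod.mk.injEq]
    by_cases h : p' = p
    · subst h; simp
    · rw [if_neg h, if_neg fun hh => h hh.1.symm]
  | cons l w ih =>
    intro p a p' b
    rw [wv_cons, Matrix.mul_apply, Fintype.sum_prod_type]
    simp only [pat, List.length_cons, Function.iterate_succ_apply, Lab, prodX]
    rw [Finset.sum_eq_single (next p)]
    · by_cases h : lab p = l
      · simp only [h, and_self, if_true, true_and, ih]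
        by_cases h2 : p' = next^[w.length] (next p) ∧ Lab next lab w (next p)
        · simp only [h2, and_self, if_true, Matrix.mul_apply]
        · simp only [h2, if_false, mul_zero, Finset.sum_const_zero]
      · simp [h]
    · intro q _ hq
      simp [hq]
    · simp

lemma trace_wv_pat (w : List Λ) :
    (wv (pat next lab X) w).trace =
      ∑ p, if next^[w.length] p = p ∧ Lab next lab w p then (prodX next X w.length p).trace
        else 0 := by
  rw [Matrix.trace, Fintype.sum_prod_type]
  refine Finset.sum_congr rfl fun p _ => ?_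
  simp only [Matrix.diag_apply, wv_pat]
  by_cases h : next^[w.length] p = p ∧ Lab next lab w p
  · rw [if_pos h]
    have h' : p = next^[w.length] p ∧ Lab next lab w p := ⟨h.1.symm, h.2⟩
    simp only [Matrix.trace, Matrix.diag_apply]
    exact Finset.sum_congr rfl fun a _ => if_pos h'
  · rw [if_neg h]
    exact Finset.sum_eq_zero fun a _ => if_neg fun hh => h ⟨hh.1.symm, hh.2⟩

lemma prodX_succ' (k : ℕ) : ∀ p, prodX next X (k + 1) p = prodX next X k p * X (next^[k] p) := by
  induction k with
  | zero => intro p; simp [prodX]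
  | succ k ih =>
    intro p
    rw [prodX, ih, prodX, mul_assoc, Function.iterate_succ_apply]

lemma prodX_one (k : ℕ) : ∀ p, (∀ j < k, X (next^[j] p) = 1) → prodX next X k p = 1 := by
  induction k with
  | zero => intro p _; rfl
  | succ k ih =>
    intro p h
    rw [prodX_succ', ih p fun j hj => h j (by omega), h k (by omega), one_mul]

lemma prodX_zero (k : ℕ) : ∀ p, (∃ j < k, X (next^[j] p) = 0) → prodX next X k p = 0 := by
  induction k with
  | zero => rintro p ⟨j, hj, _⟩; omega
  | succ k ih =>
    rintro p ⟨j, hj, h⟩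
    rw [prodX_succ']
    rcases Nat.lt_succ_iff_lt_or_eq.mp hj with hj' | rfl
    · rw [ih p ⟨j, hj', h⟩, zero_mul]
    · rw [h, mul_zero]

lemma trace_prodX_next {k : ℕ} {p : P} (h : next^[k + 1] p = p) :
    (prodX next X (k + 1) (next p)).trace = (prodX next X (k + 1) p).trace := by
  rw [prodX_succ', ← Function.iterate_succ_apply, h, Matrix.trace_mul_comm, prodX]

lemma Lab_iff (w : List Λ) : ∀ p, Lab next lab w p ↔
    ∀ (q : ℕ) (h : q < w.length), lab (next^[q] p) = w[q] := by
  induction w with
  | nil => intro p; simp [Lab]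
  | cons l w ih =>
    intro p
    rw [Lab, ih]
    constructor
    · rintro ⟨h1, h2⟩ q hq
      rcases q with _ | q
      · simpa using h1
      · simpa using h2 q (by simpa using hq)
    · intro h
      refine ⟨h 0 (Nat.succ_pos _), fun q hq => ?_⟩
      exact h (q + 1) (Nat.succ_lt_succ hq)

end pattern

end Pool.Agent.R803.MM
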